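import Mathlib

/-! Algebraic part of the near-one four exponentials theorem. -/

set_option autoImplicit false
set_option maxHeartbeats 4000000
set_option linter.unusedVariables false

noncomputable section

namespace Pool.Agent.H472R2

def P1_0 {A : Type*} [CommRing A] (k N0 N1 be ga : A) : A :=
    -51975*k + 17325*N0 - 17325*be

/-- coefficient of `e^1` (scaled by 51975) -/
def P1 {A : Type*} [CommRing A] (k N0 N1 be ga : A) : A :=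
    P1_0 k N0 N1 be ga

def P2_0 {A : Type*} [CommRing A] (k N0 N1 be ga : A) : A :=
    -519750*k^2 + 138600*k*N0 - 190575*k*be + 10395*N0^2 + 17325*N1 - 10395*be^2 - 17325*ga

/-- coefficient of `e^2` (scaled by 51975) -/
def P2 {A : Type*} [CommRing A] (k N0 N1 be ga : A) : A :=
    P2_0 k N0 N1 be ga

def P3_0 {A : Type*} [CommRing A] (k N0 N1 be ga : A) : A :=
    -2338875*k^3 + 485100*k^2*N0 - 952875*k^2*be + 62370*k*N0^2 + 138600*k*N1 - 114345*k*be^2 - 190575*k*ga + 45045*k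
     + 7425*N0^3 + 20790*N0*N1 - 18810*N0 - 7425*be^3 - 20790*be*ga + 18810*be

/-- coefficient of `e^3` (scaled by 51975) -/
def P3 {A : Type*} [CommRing A] (k N0 N1 be ga : A) : A :=
    P3_0 k N0 N1 be ga

def P4_0 {A : Type*} [CommRing A] (k N0 N1 be ga : A) : A :=
    -6237000*k^4 + 970200*k^3*N0 - 2858625*k^3*be + 155925*k^2*N0^2 + 485100*k^2*N1 - 571725*k^2*be^2 - 952875*k^2*ga + 405405*k^2
     + 29700*k*N0^3 + 124740*k*N0*N1 - 112860*k*N0 - 81675*k*be^3 - 228690*k*be*ga + 206910*k*be + 5775*N0^4 + 22275*N0^2*N1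
     - 20625*N0^2 + 10395*N1^2 - 18810*N1 - 5775*be^4

def P4_1 {A : Type*} [CommRing A] (k N0 N1 be ga : A) : A :=
    -22275*be^2*ga + 20625*be^2 - 10395*ga^2 + 18810*ga

/-- coefficient of `e^4` (scaled by 51975) -/
def P4 {A : Type*} [CommRing A] (k N0 N1 be ga : A) : A :=
    P4_0 k N0 N1 be ga + P4_1 k N0 N1 be ga

def P5_0 {A : Type*} [CommRing A] (k N0 N1 be ga : A) : A :=
    -10914750*k^5 + 1212750*k^4*N0 - 5717250*k^4*be + 207900*k^3*N0^2 + 970200*k^3*N1 - 1715175*k^3*be^2 - 2858625*k^3*ga + 1636635*k^3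
     + 44550*k^2*N0^3 + 311850*k^2*N0*N1 - 282150*k^2*N0 - 408375*k^2*be^3 - 1143450*k^2*be*ga + 1034550*k^2*be + 11550*k*N0^4 + 89100*k*N0^2*N1
     - 82500*k*N0^2 + 62370*k*N1^2 - 112860*k*N1 - 63525*k*be^4

def P5_1 {A : Type*} [CommRing A] (k N0 N1 be ga : A) : A :=
    -245025*k*be^2*ga + 226875*k*be^2 - 114345*k*ga^2 + 206910*k*ga - 43395*k + 4725*N0^5 + 23100*N0^3*N1 - 21700*N0^3
     + 22275*N0*N1^2 - 41250*N0*N1 + 19335*N0 - 4725*be^5 - 23100*be^3*ga + 21700*be^3 - 22275*be*ga^2 + 41250*be*ga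
     - 19335*be

/-- coefficient of `e^5` (scaled by 51975) -/
def P5 {A : Type*} [CommRing A] (k N0 N1 be ga : A) : A :=
    P5_0 k N0 N1 be ga + P5_1 k N0 N1 be ga

def P6_0 {A : Type*} [CommRing A] (k N0 N1 be ga : A) : A :=
    -13097700*k^6 + 970200*k^5*N0 - 8004150*k^5*be + 155925*k^4*N0^2 + 1212750*k^4*N1 - 3430350*k^4*be^2 - 5717250*k^4*ga + 3903900*k^4
     + 29700*k^3*N0^3 + 415800*k^3*N0*N1 - 376200*k^3*N0 - 1225125*k^3*be^3 - 3430350*k^3*be*ga + 3103650*k^3*be + 5775*k^2*N0^4 + 133650*k^2*N0^2*N1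
     - 123750*k^2*N0^2 + 155925*k^2*N1^2 - 282150*k^2*N1 - 317625*k^2*be^4

def P6_1 {A : Type*} [CommRing A] (k N0 N1 be ga : A) : A :=
    -1225125*k^2*be^2*ga + 1134375*k^2*be^2 - 571725*k^2*ga^2 + 1034550*k^2*ga - 347160*k^2 + 46200*k*N0^3*N1 - 43400*k*N0^3 + 89100*k*N0*N1^2
     - 165000*k*N0*N1 + 77340*k*N0 - 51975*k*be^5 - 254100*k*be^3*ga + 238700*k*be^3 - 245025*k*be*ga^2 + 453750*k*be*ga - 212685*k*be
     + 23625*N0^4*N1 + 34650*N0^2*N1^2 - 65100*N0^2*N1 + 7425*N1^3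

def P6_2 {A : Type*} [CommRing A] (k N0 N1 be ga : A) : A :=
    -20625*N1^2 + 19335*N1 - 23625*be^4*ga - 34650*be^2*ga^2 + 65100*be^2*ga - 7425*ga^3 + 20625*ga^2 - 19335*ga

/-- coefficient of `e^6` (scaled by 51975) -/
def P6 {A : Type*} [CommRing A] (k N0 N1 be ga : A) : A :=
    P6_0 k N0 N1 be ga + P6_1 k N0 N1 be ga + P6_2 k N0 N1 be ga

def P7_0 {A : Type*} [CommRing A] (k N0 N1 be ga : A) : A :=
    -10914750*k^7 + 485100*k^6*N0 - 8004150*k^6*be + 62370*k^5*N0^2 + 970200*k^5*N1 - 4802490*k^5*be^2 - 8004150*k^5*ga + 6096090*k^5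
     + 7425*k^4*N0^3 + 311850*k^4*N0*N1 - 282150*k^4*N0 - 2450250*k^4*be^3 - 6860700*k^4*be*ga + 6207300*k^4*be + 89100*k^3*N0^2*N1 - 82500*k^3*N0^2
     + 207900*k^3*N1^2 - 376200*k^3*N1 - 952875*k^3*be^4 - 3675375*k^3*be^2*ga

def P7_1 {A : Type*} [CommRing A] (k N0 N1 be ga : A) : A :=
    3403125*k^3*be^2 - 1715175*k^3*ga^2 + 3103650*k^3*ga - 1258455*k^3 + 23100*k^2*N0^3*N1 - 21700*k^2*N0^3 + 133650*k^2*N0*N1^2 - 247500*k^2*N0*N1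
     + 116010*k^2*N0 - 259875*k^2*be^5 - 1270500*k^2*be^3*ga + 1193500*k^2*be^3 - 1225125*k^2*be*ga^2 + 2268750*k^2*be*ga - 1063425*k^2*be + 69300*k*N0^2*N1^2
     - 130200*k*N0^2*N1 + 29700*k*N1^3 - 82500*k*N1^2 + 77340*k*N1

def P7_2 {A : Type*} [CommRing A] (k N0 N1 be ga : A) : A :=
    -259875*k*be^4*ga - 381150*k*be^2*ga^2 + 716100*k*be^2*ga - 81675*k*ga^3 + 226875*k*ga^2 - 212685*k*ga + 47250*N0^3*N1^2 + 23100*N0*N1^3
     - 65100*N0*N1^2 - 47250*be^3*ga^2 - 23100*be*ga^3 + 65100*be*ga^2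

/-- coefficient of `e^7` (scaled by 51975) -/
def P7 {A : Type*} [CommRing A] (k N0 N1 be ga : A) : A :=
    P7_0 k N0 N1 be ga + P7_1 k N0 N1 be ga + P7_2 k N0 N1 be ga

def P8_0 {A : Type*} [CommRing A] (k N0 N1 be ga : A) : A :=
    -6237000*k^8 + 138600*k^7*N0 - 5717250*k^7*be + 10395*k^6*N0^2 + 485100*k^6*N1 - 4802490*k^6*be^2 - 8004150*k^6*ga + 6516510*k^6
     + 124740*k^5*N0*N1 - 112860*k^5*N0 - 3430350*k^5*be^3 - 9604980*k^5*be*ga + 8690220*k^5*be + 22275*k^4*N0^2*N1 - 20625*k^4*N0^2 + 155925*k^4*N1^2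
     - 282150*k^4*N1 - 1905750*k^4*be^4 - 7350750*k^4*be^2*ga + 6806250*k^4*be^2

def P8_1 {A : Type*} [CommRing A] (k N0 N1 be ga : A) : A :=
    -3430350*k^4*ga^2 + 6207300*k^4*ga - 2733885*k^4 + 89100*k^3*N0*N1^2 - 165000*k^3*N0*N1 + 77340*k^3*N0 - 779625*k^3*be^5 - 3811500*k^3*be^3*ga
     + 3580500*k^3*be^3 - 3675375*k^3*be*ga^2 + 6806250*k^3*be*ga - 3190275*k^3*be + 34650*k^2*N0^2*N1^2 - 65100*k^2*N0^2*N1 + 44550*k^2*N1^3 - 123750*k^2*N1^2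
     + 116010*k^2*N1 - 1299375*k^2*be^4*ga - 1905750*k^2*be^2*ga^2 + 3580500*k^2*be^2*ga

def P8_2 {A : Type*} [CommRing A] (k N0 N1 be ga : A) : A :=
    -408375*k^2*ga^3 + 1134375*k^2*ga^2 - 1063425*k^2*ga + 46200*k*N0*N1^3 - 130200*k*N0*N1^2 - 519750*k*be^3*ga^2 - 254100*k*be*ga^3 + 716100*k*be*ga^2
     + 47250*N0^2*N1^3 + 5775*N1^4 - 21700*N1^3 - 47250*be^2*ga^3 - 5775*ga^4 + 21700*ga^3

/-- coefficient of `e^8` (scaled by 51975) -/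
def P8 {A : Type*} [CommRing A] (k N0 N1 be ga : A) : A :=
    P8_0 k N0 N1 be ga + P8_1 k N0 N1 be ga + P8_2 k N0 N1 be ga

def P9_0 {A : Type*} [CommRing A] (k N0 N1 be ga : A) : A :=
    -2338875*k^9 + 17325*k^8*N0 - 2858625*k^8*be + 138600*k^7*N1 - 3430350*k^7*be^2 - 5717250*k^7*ga + 4834830*k^7 + 20790*k^6*N0*N1
     - 18810*k^6*N0 - 3430350*k^6*be^3 - 9604980*k^6*be*ga + 8690220*k^6*be + 62370*k^5*N1^2 - 112860*k^5*N1 - 2668050*k^5*be^4 - 10291050*k^5*be^2*ga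
     + 9528750*k^5*be^2 - 4802490*k^5*ga^2 + 8690220*k^5*ga - 3957624*k^5

def P9_1 {A : Type*} [CommRing A] (k N0 N1 be ga : A) : A :=
    22275*k^4*N0*N1^2 - 41250*k^4*N0*N1 + 19335*k^4*N0 - 1559250*k^4*be^5 - 7623000*k^4*be^3*ga + 7161000*k^4*be^3 - 7350750*k^4*be*ga^2 + 13612500*k^4*be*ga
     - 6380550*k^4*be + 29700*k^3*N1^3 - 82500*k^3*N1^2 + 77340*k^3*N1 - 3898125*k^3*be^4*ga - 5717250*k^3*be^2*ga^2 + 10741500*k^3*be^2*ga - 1225125*k^3*ga^3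
     + 3403125*k^3*ga^2 - 3190275*k^3*ga + 23100*k^2*N0*N1^3 - 65100*k^2*N0*N1^2

def P9_2 {A : Type*} [CommRing A] (k N0 N1 be ga : A) : A :=
    -2598750*k^2*be^3*ga^2 - 1270500*k^2*be*ga^3 + 3580500*k^2*be*ga^2 + 11550*k*N1^4 - 43400*k*N1^3 - 519750*k*be^2*ga^3 - 63525*k*ga^4 + 238700*k*ga^3
     + 23625*N0*N1^4 - 23625*be*ga^4

/-- coefficient of `e^9` (scaled by 51975) -/
def P9 {A : Type*} [CommRing A] (k N0 N1 be ga : A) : A :=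
    P9_0 k N0 N1 be ga + P9_1 k N0 N1 be ga + P9_2 k N0 N1 be ga

def P10_0 {A : Type*} [CommRing A] (k N0 N1 be ga : A) : A :=
    -519750*k^10 - 952875*k^9*be + 17325*k^8*N1 - 1715175*k^8*be^2 - 2858625*k^8*ga + 2462460*k^8 - 2450250*k^7*be^3 - 6860700*k^7*be*ga
     + 6207300*k^7*be + 10395*k^6*N1^2 - 18810*k^6*N1 - 2668050*k^6*be^4 - 10291050*k^6*be^2*ga + 9528750*k^6*be^2 - 4802490*k^6*ga^2 + 8690220*k^6*ga
     - 4001019*k^6 - 2182950*k^5*be^5 - 10672200*k^5*be^3*ga + 10025400*k^5*be^3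

def P10_1 {A : Type*} [CommRing A] (k N0 N1 be ga : A) : A :=
    -10291050*k^5*be*ga^2 + 19057500*k^5*be*ga - 8932770*k^5*be + 7425*k^4*N1^3 - 20625*k^4*N1^2 + 19335*k^4*N1 - 7796250*k^4*be^4*ga - 11434500*k^4*be^2*ga^2
     + 21483000*k^4*be^2*ga - 2450250*k^4*ga^3 + 6806250*k^4*ga^2 - 6380550*k^4*ga - 7796250*k^3*be^3*ga^2 - 3811500*k^3*be*ga^3 + 10741500*k^3*be*ga^2 + 5775*k^2*N1^4
     - 21700*k^2*N1^3 - 2598750*k^2*be^2*ga^3 - 317625*k^2*ga^4 + 1193500*k^2*ga^3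

def P10_2 {A : Type*} [CommRing A] (k N0 N1 be ga : A) : A :=
    -259875*k*be*ga^4 + 4725*N1^5 - 4725*ga^5

/-- coefficient of `e^10` (scaled by 51975) -/
def P10 {A : Type*} [CommRing A] (k N0 N1 be ga : A) : A :=
    P10_0 k N0 N1 be ga + P10_1 k N0 N1 be ga + P10_2 k N0 N1 be ga

def P11_0 {A : Type*} [CommRing A] (k N0 N1 be ga : A) : A :=
    -51975*k^11 - 190575*k^10*be - 571725*k^9*be^2 - 952875*k^9*ga + 825825*k^9 - 1225125*k^8*be^3 - 3430350*k^8*be*ga + 3103650*k^8*be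
     - 1905750*k^7*be^4 - 7350750*k^7*be^2*ga + 6806250*k^7*be^2 - 3430350*k^7*ga^2 + 6207300*k^7*ga - 2864070*k^7 - 2182950*k^6*be^5 - 10672200*k^6*be^3*ga
     + 10025400*k^6*be^3 - 10291050*k^6*be*ga^2 + 19057500*k^6*be*ga - 8932770*k^6*be

def P11_1 {A : Type*} [CommRing A] (k N0 N1 be ga : A) : A :=
    -10914750*k^5*be^4*ga - 16008300*k^5*be^2*ga^2 + 30076200*k^5*be^2*ga - 3430350*k^5*ga^3 + 9528750*k^5*ga^2 - 8932770*k^5*ga - 15592500*k^4*be^3*ga^2 - 7623000*k^4*be*ga^3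
     + 21483000*k^4*be*ga^2 - 7796250*k^3*be^2*ga^3 - 952875*k^3*ga^4 + 3580500*k^3*ga^3 - 1299375*k^2*be*ga^4 - 51975*k*ga^5

/-- coefficient of `e^11` (scaled by 51975) -/
def P11 {A : Type*} [CommRing A] (k N0 N1 be ga : A) : A :=
    P11_0 k N0 N1 be ga + P11_1 k N0 N1 be ga

def P12_0 {A : Type*} [CommRing A] (k N0 N1 be ga : A) : A :=
    -17325*k^11*be - 114345*k^10*be^2 - 190575*k^10*ga + 165165*k^10 - 408375*k^9*be^3 - 1143450*k^9*be*ga + 1034550*k^9*be - 952875*k^8*be^4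
     - 3675375*k^8*be^2*ga + 3403125*k^8*be^2 - 1715175*k^8*ga^2 + 3103650*k^8*ga - 1432035*k^8 - 1559250*k^7*be^5 - 7623000*k^7*be^3*ga + 7161000*k^7*be^3
     - 7350750*k^7*be*ga^2 + 13612500*k^7*be*ga - 6380550*k^7*be - 10914750*k^6*be^4*ga

def P12_1 {A : Type*} [CommRing A] (k N0 N1 be ga : A) : A :=
    -16008300*k^6*be^2*ga^2 + 30076200*k^6*be^2*ga - 3430350*k^6*ga^3 + 9528750*k^6*ga^2 - 8932770*k^6*ga - 21829500*k^5*be^3*ga^2 - 10672200*k^5*be*ga^3 + 30076200*k^5*be*ga^2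
     - 15592500*k^4*be^2*ga^3 - 1905750*k^4*ga^4 + 7161000*k^4*ga^3 - 3898125*k^3*be*ga^4 - 259875*k^2*ga^5

/-- coefficient of `e^12` (scaled by 51975) -/
def P12 {A : Type*} [CommRing A] (k N0 N1 be ga : A) : A :=
    P12_0 k N0 N1 be ga + P12_1 k N0 N1 be ga

def P13_0 {A : Type*} [CommRing A] (k N0 N1 be ga : A) : A :=
    -10395*k^11*be^2 - 17325*k^11*ga + 15015*k^11 - 81675*k^10*be^3 - 228690*k^10*be*ga + 206910*k^10*be - 317625*k^9*be^4 - 1225125*k^9*be^2*ga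
     + 1134375*k^9*be^2 - 571725*k^9*ga^2 + 1034550*k^9*ga - 477345*k^9 - 779625*k^8*be^5 - 3811500*k^8*be^3*ga + 3580500*k^8*be^3 - 3675375*k^8*be*ga^2
     + 6806250*k^8*be*ga - 3190275*k^8*be - 7796250*k^7*be^4*ga - 11434500*k^7*be^2*ga^2

def P13_1 {A : Type*} [CommRing A] (k N0 N1 be ga : A) : A :=
    21483000*k^7*be^2*ga - 2450250*k^7*ga^3 + 6806250*k^7*ga^2 - 6380550*k^7*ga - 21829500*k^6*be^3*ga^2 - 10672200*k^6*be*ga^3 + 30076200*k^6*be*ga^2 - 21829500*k^5*be^2*ga^3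
     - 2668050*k^5*ga^4 + 10025400*k^5*ga^3 - 7796250*k^4*be*ga^4 - 779625*k^3*ga^5

/-- coefficient of `e^13` (scaled by 51975) -/
def P13 {A : Type*} [CommRing A] (k N0 N1 be ga : A) : A :=
    P13_0 k N0 N1 be ga + P13_1 k N0 N1 be ga

def P14_0 {A : Type*} [CommRing A] (k N0 N1 be ga : A) : A :=
    -7425*k^11*be^3 - 20790*k^11*be*ga + 18810*k^11*be - 63525*k^10*be^4 - 245025*k^10*be^2*ga + 226875*k^10*be^2 - 114345*k^10*ga^2 + 206910*k^10*ga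
     - 95469*k^10 - 259875*k^9*be^5 - 1270500*k^9*be^3*ga + 1193500*k^9*be^3 - 1225125*k^9*be*ga^2 + 2268750*k^9*be*ga - 1063425*k^9*be - 3898125*k^8*be^4*ga
     - 5717250*k^8*be^2*ga^2 + 10741500*k^8*be^2*ga - 1225125*k^8*ga^3 + 3403125*k^8*ga^2

def P14_1 {A : Type*} [CommRing A] (k N0 N1 be ga : A) : A :=
    -3190275*k^8*ga - 15592500*k^7*be^3*ga^2 - 7623000*k^7*be*ga^3 + 21483000*k^7*be*ga^2 - 21829500*k^6*be^2*ga^3 - 2668050*k^6*ga^4 + 10025400*k^6*ga^3 - 10914750*k^5*be*ga^4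
     - 1559250*k^4*ga^5

/-- coefficient of `e^14` (scaled by 51975) -/
def P14 {A : Type*} [CommRing A] (k N0 N1 be ga : A) : A :=
    P14_0 k N0 N1 be ga + P14_1 k N0 N1 be ga

def P15_0 {A : Type*} [CommRing A] (k N0 N1 be ga : A) : A :=
    -5775*k^11*be^4 - 22275*k^11*be^2*ga + 20625*k^11*be^2 - 10395*k^11*ga^2 + 18810*k^11*ga - 8679*k^11 - 51975*k^10*be^5 - 254100*k^10*be^3*ga
     + 238700*k^10*be^3 - 245025*k^10*be*ga^2 + 453750*k^10*be*ga - 212685*k^10*be - 1299375*k^9*be^4*ga - 1905750*k^9*be^2*ga^2 + 3580500*k^9*be^2*ga - 408375*k^9*ga^3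
     + 1134375*k^9*ga^2 - 1063425*k^9*ga - 7796250*k^8*be^3*ga^2 - 3811500*k^8*be*ga^3

def P15_1 {A : Type*} [CommRing A] (k N0 N1 be ga : A) : A :=
    10741500*k^8*be*ga^2 - 15592500*k^7*be^2*ga^3 - 1905750*k^7*ga^4 + 7161000*k^7*ga^3 - 10914750*k^6*be*ga^4 - 2182950*k^5*ga^5

/-- coefficient of `e^15` (scaled by 51975) -/
def P15 {A : Type*} [CommRing A] (k N0 N1 be ga : A) : A :=
    P15_0 k N0 N1 be ga + P15_1 k N0 N1 be ga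

def P16_0 {A : Type*} [CommRing A] (k N0 N1 be ga : A) : A :=
    -4725*k^11*be^5 - 23100*k^11*be^3*ga + 21700*k^11*be^3 - 22275*k^11*be*ga^2 + 41250*k^11*be*ga - 19335*k^11*be - 259875*k^10*be^4*ga - 381150*k^10*be^2*ga^2
     + 716100*k^10*be^2*ga - 81675*k^10*ga^3 + 226875*k^10*ga^2 - 212685*k^10*ga - 2598750*k^9*be^3*ga^2 - 1270500*k^9*be*ga^3 + 3580500*k^9*be*ga^2 - 7796250*k^8*be^2*ga^3
     - 952875*k^8*ga^4 + 3580500*k^8*ga^3 - 7796250*k^7*be*ga^4 - 2182950*k^6*ga^5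

/-- coefficient of `e^16` (scaled by 51975) -/
def P16 {A : Type*} [CommRing A] (k N0 N1 be ga : A) : A :=
    P16_0 k N0 N1 be ga

def P17_0 {A : Type*} [CommRing A] (k N0 N1 be ga : A) : A :=
    -23625*k^11*be^4*ga - 34650*k^11*be^2*ga^2 + 65100*k^11*be^2*ga - 7425*k^11*ga^3 + 20625*k^11*ga^2 - 19335*k^11*ga - 519750*k^10*be^3*ga^2 - 254100*k^10*be*ga^3
     + 716100*k^10*be*ga^2 - 2598750*k^9*be^2*ga^3 - 317625*k^9*ga^4 + 1193500*k^9*ga^3 - 3898125*k^8*be*ga^4 - 1559250*k^7*ga^5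

/-- coefficient of `e^17` (scaled by 51975) -/
def P17 {A : Type*} [CommRing A] (k N0 N1 be ga : A) : A :=
    P17_0 k N0 N1 be ga

def P18_0 {A : Type*} [CommRing A] (k N0 N1 be ga : A) : A :=
    -47250*k^11*be^3*ga^2 - 23100*k^11*be*ga^3 + 65100*k^11*be*ga^2 - 519750*k^10*be^2*ga^3 - 63525*k^10*ga^4 + 238700*k^10*ga^3 - 1299375*k^9*be*ga^4 - 779625*k^8*ga^5

/-- coefficient of `e^18` (scaled by 51975) -/
def P18 {A : Type*} [CommRing A] (k N0 N1 be ga : A) : A :=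
    P18_0 k N0 N1 be ga

def P19_0 {A : Type*} [CommRing A] (k N0 N1 be ga : A) : A :=
    -47250*k^11*be^2*ga^3 - 5775*k^11*ga^4 + 21700*k^11*ga^3 - 259875*k^10*be*ga^4 - 259875*k^9*ga^5

/-- coefficient of `e^19` (scaled by 51975) -/
def P19 {A : Type*} [CommRing A] (k N0 N1 be ga : A) : A :=
    P19_0 k N0 N1 be ga

def P20_0 {A : Type*} [CommRing A] (k N0 N1 be ga : A) : A :=
    -23625*k^11*be*ga^4 - 51975*k^10*ga^5

/-- coefficient of `e^20` (scaled by 51975) -/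
def P20 {A : Type*} [CommRing A] (k N0 N1 be ga : A) : A :=
    P20_0 k N0 N1 be ga

def P21_0 {A : Type*} [CommRing A] (k N0 N1 be ga : A) : A :=
    -4725*k^11*ga^5

/-- coefficient of `e^21` (scaled by 51975) -/
def P21 {A : Type*} [CommRing A] (k N0 N1 be ga : A) : A :=
    P21_0 k N0 N1 be ga

/-- the truncated series of `artanh u / u` in `z = u^2` -/
def T5 (z : ℂ) : ℂ := 1 + z/3 + z^2/5 + z^3/7 + z^4/9 + z^5/11

/-- truncated symmetric product -/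
def F5 (E F e : ℂ) : ℂ :=
  1 + e*(E/3) + e^2*((E^2-2*F)/5+F/9) + e^3*((E^3-3*E*F)/7+E*F/15)
    + e^4*((E^4-4*E^2*F+2*F^2)/9+F*(E^2-2*F)/21+F^2/25)
    + e^5*((E^5-5*E^3*F+5*E*F^2)/11+F*(E^3-3*E*F)/27+F^2*E/35)

def XX (a b e : ℂ) : ℂ := a^1*b^5*e^0/33 + a^2*b^4*e^0/45 + a^2*b^5*e^1/55 + a^3*b^3*e^0/49 + a^3*b^4*e^1/63 + a^3*b^5*e^2/77 + a^4*b^2*e^0/45 + a^4*b^3*e^1/63 + a^4*b^4*e^2/81 + a^4*b^5*e^3/99 + a^5*b^1*e^0/33 + a^5*b^2*e^1/55 + a^5*b^3*e^2/77 + a^5*b^4*e^3/99 + a^5*b^5*e^4/121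

lemma T5_mul (a b e : ℂ) : T5 (e*a) * T5 (e*b) = F5 (a+b) (a*b) e + e^6 * XX a b e := by
  unfold T5 F5 XX
  ring

/-- `F5` after clearing denominators -/
def WW (N Y e : ℂ) : ℂ :=
  Y^5 + e*N*Y^4/3 + e^2*(Y^3*(N^2-2*Y)/5+Y^4/9) + e^3*(Y^2*(N^3-3*N*Y)/7+Y^3*N/15)
    + e^4*(Y*(N^4-4*N^2*Y+2*Y^2)/9+Y^2*(N^2-2*Y)/21+Y^3/25)
    + e^5*((N^5-5*N^3*Y+5*N*Y^2)/11+Y*(N^3-3*N*Y)/27+Y^2*N/35)

lemma WW_eq (N Y e : ℂ) (hY : Y ≠ 0) : Y^5 * F5 (N/Y) (1/Y) e = WW N Y e := by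
  unfold F5 WW
  field_simp

/-- the remainder polynomial -/
def Rst {A : Type*} [CommRing A] (k N0 N1 be ga e : A) : A :=
    P6 k N0 N1 be ga * e^0 + P7 k N0 N1 be ga * e^1 + P8 k N0 N1 be ga * e^2 + P9 k N0 N1 be ga * e^3 + P10 k N0 N1 be ga * e^4 + P11 k N0 N1 be ga * e^5 + P12 k N0 N1 be ga * e^6 + P13 k N0 N1 be ga * e^7 + P14 k N0 N1 be ga * e^8 + P15 k N0 N1 be ga * e^9 + P16 k N0 N1 be ga * e^10 + P17 k N0 N1 be ga * e^11 + P18 k N0 N1 be ga * e^12 + P19 k N0 N1 be ga * e^13 + P20 k N0 N1 be ga * e^14 + P21 k N0 N1 be ga * e^15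

lemma big (k N0 N1 be ga e : ℂ) :
    51975*(WW (N0+N1*e) ((1+k*e)^2) e - ((1+k*e)^2)^5*((1+k*e)*F5 (be+ga*e) 1 e))
      = P1 k N0 N1 be ga * e + P2 k N0 N1 be ga * e^2 + P3 k N0 N1 be ga * e^3
        + P4 k N0 N1 be ga * e^4 + P5 k N0 N1 be ga * e^5 + e^6 * Rst k N0 N1 be ga e := by
  unfold WW F5 Rst
  simp only [P1, P2, P3, P4, P5, P6, P7, P8, P9, P10, P11, P12, P13, P14, P15, P16, P17, P18, P19, P20, P21, P1_0, P2_0, P3_0, P4_0, P4_1, P5_0, P5_1, P6_0, P6_1, P6_2, P7_0, P7_1, P7_2, P8_0, P8_1, P8_2, P9_0, P9_1, P9_2, P10_0, P10_1, P10_2, P11_0, P11_1, P12_0, P12_1, P13_0, P13_1, P14_0, P14_1, P15_0, P15_1, P16_0, P17_0, P18_0, P19_0, P20_0, P21_0]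
  ring

end Pool.Agent.H472R2
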