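import Pool.Agent.H472R2.Alg

/-! Analytic part: expansion of `log (1+u) - log (1-u)`. -/

set_option autoImplicit false
set_option maxHeartbeats 1000000

noncomputable section

namespace Pool.Agent.H472R2

/-- `log (1+u) - log (1-u)` -/
def Lam (u : ℂ) : ℂ := Complex.log (1 + u) - Complex.log (1 - u)

lemma Lam_expand (u : ℂ) (hu : ‖u‖ ≤ 1/2) :
    ∃ r : ℂ, ‖r‖ ≤ 1 ∧ Lam u = 2 * u * (T5 (u^2) + (u^2)^6 * r) := by
  by_cases h0 : u = 0
  · refine ⟨0, by simp, ?_⟩
    subst h0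
    simp [Lam]
  have h1 : ‖Complex.log (1 + u) - Complex.logTaylor 13 u‖ ≤ ‖u‖^13 * (2/13) := by
    have h := Complex.norm_log_sub_logTaylor_le 12 (z := u) (by linarith)
    have h2 : (1 - ‖u‖)⁻¹ ≤ 2 := by
      rw [inv_le_comm₀ (by linarith) (by norm_num)]
      linarith
    have h3 : ‖u‖ ^ (12 + 1) * (1 - ‖u‖)⁻¹ / (12 + 1) ≤ ‖u‖^13 * (2/13) := by
      have : ‖u‖ ^ 13 * (1 - ‖u‖)⁻¹ ≤ ‖u‖^13 * 2 :=
        mul_le_mul_of_nonneg_left h2 (by positivity)
      norm_num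
      linarith
    refine le_trans (le_of_le_of_eq h ?_) h3
    norm_num
  have h1' : ‖Complex.log (1 - u) - Complex.logTaylor 13 (-u)‖ ≤ ‖u‖^13 * (2/13) := by
    have h := Complex.norm_log_sub_logTaylor_le 12 (z := -u) (by rw [norm_neg]; linarith)
    rw [norm_neg] at h
    have h2 : (1 - ‖u‖)⁻¹ ≤ 2 := by
      rw [inv_le_comm₀ (by linarith) (by norm_num)]
      linarith
    have h3 : ‖u‖ ^ (12 + 1) * (1 - ‖u‖)⁻¹ / (12 + 1) ≤ ‖u‖^13 * (2/13) := by
      have : ‖u‖ ^ 13 * (1 - ‖u‖)⁻¹ ≤ ‖u‖^13 * 2 :=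
        mul_le_mul_of_nonneg_left h2 (by positivity)
      norm_num
      linarith
    rw [← sub_eq_add_neg] at h
    refine le_trans (le_of_le_of_eq h ?_) h3
    norm_num
  have h4 : Complex.logTaylor 13 u - Complex.logTaylor 13 (-u) = 2 * u * T5 (u^2) := by
    simp only [Complex.logTaylor, Finset.sum_range_succ, Finset.sum_range_zero, T5]
    push_cast
    ring
  have h5 : ‖Lam u - 2 * u * T5 (u^2)‖ ≤ ‖u‖^13 * (4/13) := by
    rw [← h4]
    have : Lam u - (Complex.logTaylor 13 u - Complex.logTaylor 13 (-u))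
        = (Complex.log (1 + u) - Complex.logTaylor 13 u)
          - (Complex.log (1 - u) - Complex.logTaylor 13 (-u)) := by
      unfold Lam; ring
    rw [this]
    refine le_trans (norm_sub_le _ _) ?_
    linarith
  have hu0 : 0 < ‖u‖ := norm_pos_iff.mpr h0
  refine ⟨(Lam u - 2 * u * T5 (u^2)) / (2 * u * (u^2)^6), ?_, ?_⟩
  · rw [norm_div]
    have : ‖2 * u * (u^2)^6‖ = 2 * ‖u‖^13 := by
      rw [norm_mul, norm_mul, norm_pow, norm_pow]
      norm_num
      ring
    rw [this, div_le_one (by positivity)]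
    have : 0 < ‖u‖^13 := by positivity
    linarith
  · field_simp
    ring

end Pool.Agent.H472R2
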