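import Pool.Agent.H472R2.Slow

/-! Core argument for the near-one four exponentials theorem. -/

set_option autoImplicit false
set_option maxHeartbeats 4000000

noncomputable section

open Filter

namespace Pool.Agent.H472R2

variable {M : ℕ → ℝ} {hM : ∀ i, 2 ≤ M i}

/-- pointwise expansion -/
def GG (e z r : ℂ) : ℂ := T5 (e*z) + e^6 * (z^6 * r)

lemma rel_point (u0 u1 u2 u3 : ℂ) (h0 : u0 ≠ 0) (h1 : u1 ≠ 0) (h2 : u2 ≠ 0) (h3 : u3 ≠ 0)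
    (n0 : ‖u0‖ ≤ 1/2) (n1 : ‖u1‖ ≤ 1/2) (n2 : ‖u2‖ ≤ 1/2) (n3 : ‖u3‖ ≤ 1/2)
    (hrel : Lam u0 * Lam u3 = Lam u1 * Lam u2) :
    ∃ r0 r1 r2 r3 : ℂ, ‖r0‖ ≤ 1 ∧ ‖r1‖ ≤ 1 ∧ ‖r2‖ ≤ 1 ∧ ‖r3‖ ≤ 1 ∧
      GG (u1*u2) (u0^2/(u1*u2)) r0 * GG (u1*u2) (u3^2/(u1*u2)) r3 =
      (1 + ((u0*u3)⁻¹ - (u1*u2)⁻¹)*(u1*u2)) *
        (GG (u1*u2) (u1^2/(u1*u2)) r1 * GG (u1*u2) (u2^2/(u1*u2)) r2) := by
  obtain ⟨r0, hr0, e0⟩ := Lam_expand u0 n0
  obtain ⟨r1, hr1, e1⟩ := Lam_expand u1 n1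
  obtain ⟨r2, hr2, e2⟩ := Lam_expand u2 n2
  obtain ⟨r3, hr3, e3⟩ := Lam_expand u3 n3
  refine ⟨r0, r1, r2, r3, hr0, hr1, hr2, hr3, ?_⟩
  have he : u1 * u2 ≠ 0 := mul_ne_zero h1 h2
  have key : ∀ u r : ℂ, GG (u1*u2) (u^2/(u1*u2)) r = T5 (u^2) + (u^2)^6 * r := by
    intro u r
    unfold GG
    have : u1 * u2 * (u^2/(u1*u2)) = u^2 := by field_simp
    rw [this]
    congr 1
    rw [div_pow]
    field_simp
  rw [key, key, key, key]
  rw [e0, e1, e2, e3] at hrel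
  have h5 : (1 + ((u0*u3)⁻¹ - (u1*u2)⁻¹)*(u1*u2)) = (u1*u2)/(u0*u3) := by
    field_simp
    ring
  rw [h5]
  set G0 := T5 (u0^2) + (u0^2)^6 * r0
  set G1 := T5 (u1^2) + (u1^2)^6 * r1
  set G2 := T5 (u2^2) + (u2^2)^6 * r2
  set G3 := T5 (u3^2) + (u3^2)^6 * r3
  field_simp
  linear_combination hrel / 4

lemma T5_slow {e z : ℕ → ℂ} (he : e ∈ Slow M hM) (hz : z ∈ Slow M hM) :
    (fun i => T5 (e i * z i)) ∈ Slow M hM := by
  unfold T5
  have h := slow_mul he hz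
  exact slow_add (slow_add (slow_add (slow_add (slow_add (slow_const 1) (slow_div_const h 3))
    (slow_div_const (slow_pow h 2) 5)) (slow_div_const (slow_pow h 3) 7))
    (slow_div_const (slow_pow h 4) 9)) (slow_div_const (slow_pow h 5) 11)

lemma term_slow {a b e : ℕ → ℂ} (ha : a ∈ Slow M hM) (hb : b ∈ Slow M hM) (he : e ∈ Slow M hM)
    (p q r : ℕ) (c : ℂ) : (fun i => a i ^ p * b i ^ q * e i ^ r / c) ∈ Slow M hM :=
  slow_div_const (slow_mul (slow_mul (slow_pow ha p) (slow_pow hb q)) (slow_pow he r)) c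

lemma XX_slow {a b e : ℕ → ℂ} (ha : a ∈ Slow M hM) (hb : b ∈ Slow M hM) (he : e ∈ Slow M hM) :
    (fun i => XX (a i) (b i) (e i)) ∈ Slow M hM := by
  unfold XX
  repeat' (first | exact term_slow ha hb he _ _ _ _ | apply slow_add)

/-- all data of the argument -/
structure Data (O : ℕ → Subring ℂ) (M : ℕ → ℝ) (hM : ∀ i, 2 ≤ M i) (u0 u1 u2 u3 : ℕ → ℂ) : Prop where
  hO : ∀ i, ∀ x ∈ O i, x ≠ 0 → 1 ≤ ‖x‖
  h0 : ∀ i, u0 i ≠ 0
  h1 : ∀ i, u1 i ≠ 0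
  h2 : ∀ i, u2 i ≠ 0
  h3 : ∀ i, u3 i ≠ 0
  n0 : ∀ i, ‖u0 i‖ ≤ 1/2
  n1 : ∀ i, ‖u1 i‖ ≤ 1/2
  n2 : ∀ i, ‖u2 i‖ ≤ 1/2
  n3 : ∀ i, ‖u3 i‖ ≤ 1/2
  k0 : (fun i => (u0 i)⁻¹) ∈ Kt O M hM
  k1 : (fun i => (u1 i)⁻¹) ∈ Kt O M hM
  k2 : (fun i => (u2 i)⁻¹) ∈ Kt O M hM
  k3 : (fun i => (u3 i)⁻¹) ∈ Kt O M hM
  s0 : (fun i => (u0 i)^2/(u1 i * u2 i)) ∈ Slow M hM
  s1 : (fun i => (u1 i)^2/(u1 i * u2 i)) ∈ Slow M hM
  s2 : (fun i => (u2 i)^2/(u1 i * u2 i)) ∈ Slow M hM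
  s3 : (fun i => (u3 i)^2/(u1 i * u2 i)) ∈ Slow M hM
  tiny : Tiny M (fun i => u1 i * u2 i)
  rel : ∀ i, Lam (u0 i) * Lam (u3 i) = Lam (u1 i) * Lam (u2 i)

section

variable {O : ℕ → Subring ℂ} {u0 u1 u2 u3 : ℕ → ℂ}

/-- `κ = 1/(u0 u3) - 1/(u1 u2)` -/
def kap (u0 u1 u2 u3 : ℕ → ℂ) (i : ℕ) : ℂ := (u0 i * u3 i)⁻¹ - (u1 i * u2 i)⁻¹

def bb (u1 u2 : ℕ → ℂ) (i : ℕ) : ℂ := (u1 i)^2/(u1 i * u2 i) + (u2 i)^2/(u1 i * u2 i)

def NN (u0 u1 u2 u3 : ℕ → ℂ) (i : ℕ) : ℂ :=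
  ((u0 i)^2/(u1 i * u2 i) + (u3 i)^2/(u1 i * u2 i)) * (1 + kap u0 u1 u2 u3 i * (u1 i * u2 i))^2

def cc (u0 u1 u2 u3 : ℕ → ℂ) (i : ℕ) : ℂ :=
  (NN u0 u1 u2 u3 i - bb u1 u2 i - 3 * kap u0 u1 u2 u3 i) / (u1 i * u2 i)

lemma GG_sub {e z r : ℂ} : GG e z r = 1 + e * (z/3 + e*z^2/5 + e^2*z^3/7 + e^3*z^4/9 + e^4*z^5/11
    + e^5*(z^6*r)) := by
  unfold GG T5; ring

lemma eta_slow {e z r : ℕ → ℂ} (he : e ∈ Slow M hM) (hz : z ∈ Slow M hM) (hr : r ∈ Slow M hM) :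
    (fun i => z i/3 + e i*z i^2/5 + e i^2*z i^3/7 + e i^3*z i^4/9 + e i^4*z i^5/11
    + e i^5*(z i^6*r i)) ∈ Slow M hM := by
  refine slow_add (slow_add (slow_add (slow_add (slow_add (slow_div_const hz 3) ?_) ?_) ?_) ?_) ?_
  · exact slow_div_const (slow_mul he (slow_pow hz 2)) 5
  · exact slow_div_const (slow_mul (slow_pow he 2) (slow_pow hz 3)) 7
  · exact slow_div_const (slow_mul (slow_pow he 3) (slow_pow hz 4)) 9
  · exact slow_div_const (slow_mul (slow_pow he 4) (slow_pow hz 5)) 11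
  · exact slow_mul (slow_pow he 5) (slow_mul (slow_pow hz 6) hr)

/-- the basic relation, first consequences: `κ` is slow and the truncated relation -/
lemma basic (D : Data O M hM u0 u1 u2 u3) :
    kap u0 u1 u2 u3 ∈ Slow M hM ∧ ∃ S ∈ Slow M hM, ∀ i,
      WW (NN u0 u1 u2 u3 i) ((1 + kap u0 u1 u2 u3 i * (u1 i * u2 i))^2) (u1 i * u2 i)
        - ((1 + kap u0 u1 u2 u3 i * (u1 i * u2 i))^2)^5 *
          ((1 + kap u0 u1 u2 u3 i * (u1 i * u2 i)) * F5 (bb u1 u2 i) 1 (u1 i * u2 i))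
        = (u1 i * u2 i)^6 * S i := by
  choose r0 r1 r2 r3 hr0 hr1 hr2 hr3 hR using fun i =>
    rel_point (u0 i) (u1 i) (u2 i) (u3 i) (D.h0 i) (D.h1 i) (D.h2 i) (D.h3 i)
      (D.n0 i) (D.n1 i) (D.n2 i) (D.n3 i) (D.rel i)
  have bd : ∀ r : ℕ → ℂ, (∀ i, ‖r i‖ ≤ 1) → r ∈ Slow M hM := fun r hr =>
    ⟨0, Eventually.of_forall fun i => by simpa using hr i⟩
  have sr0 := bd r0 hr0
  have sr1 := bd r1 hr1
  have sr2 := bd r2 hr2
  have sr3 := bd r3 hr3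
  set e : ℕ → ℂ := fun i => u1 i * u2 i with he
  have hes : e ∈ Slow M hM := D.tiny.slow
  have hε : ∀ i, e i ≠ 0 := fun i => mul_ne_zero (D.h1 i) (D.h2 i)
  set z0 : ℕ → ℂ := fun i => (u0 i)^2/(u1 i * u2 i) with hz0
  set z1 : ℕ → ℂ := fun i => (u1 i)^2/(u1 i * u2 i) with hz1
  set z2 : ℕ → ℂ := fun i => (u2 i)^2/(u1 i * u2 i) with hz2
  set z3 : ℕ → ℂ := fun i => (u3 i)^2/(u1 i * u2 i) with hz3
  have R : ∀ i, GG (e i) (z0 i) (r0 i) * GG (e i) (z3 i) (r3 i)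
      = (1 + kap u0 u1 u2 u3 i * e i) * (GG (e i) (z1 i) (r1 i) * GG (e i) (z2 i) (r2 i)) := hR
  -- the eta functions
  have E0 := eta_slow hes D.s0 sr0
  have E1 := eta_slow hes D.s1 sr1
  have E2 := eta_slow hes D.s2 sr2
  have E3 := eta_slow hes D.s3 sr3
  set t0 : ℕ → ℂ := fun i => z0 i/3 + e i*z0 i^2/5 + e i^2*z0 i^3/7 + e i^3*z0 i^4/9
    + e i^4*z0 i^5/11 + e i^5*(z0 i^6*r0 i) with ht0
  set t1 : ℕ → ℂ := fun i => z1 i/3 + e i*z1 i^2/5 + e i^2*z1 i^3/7 + e i^3*z1 i^4/9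
    + e i^4*z1 i^5/11 + e i^5*(z1 i^6*r1 i) with ht1
  set t2 : ℕ → ℂ := fun i => z2 i/3 + e i*z2 i^2/5 + e i^2*z2 i^3/7 + e i^3*z2 i^4/9
    + e i^4*z2 i^5/11 + e i^5*(z2 i^6*r2 i) with ht2
  set t3 : ℕ → ℂ := fun i => z3 i/3 + e i*z3 i^2/5 + e i^2*z3 i^3/7 + e i^3*z3 i^4/9
    + e i^4*z3 i^5/11 + e i^5*(z3 i^6*r3 i) with ht3
  have G0 : ∀ i, GG (e i) (z0 i) (r0 i) = 1 + e i * t0 i := fun i => GG_sub
  have G1 : ∀ i, GG (e i) (z1 i) (r1 i) = 1 + e i * t1 i := fun i => GG_sub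
  have G2 : ∀ i, GG (e i) (z2 i) (r2 i) = 1 + e i * t2 i := fun i => GG_sub
  have G3 : ∀ i, GG (e i) (z3 i) (r3 i) = 1 + e i * t3 i := fun i => GG_sub
  have hkap : kap u0 u1 u2 u3 ∈ Slow M hM := by
    have hD : (fun i => t0 i + t3 i + e i * (t0 i * t3 i) - t1 i - t2 i - e i * (t1 i * t2 i))
        ∈ Slow M hM :=
      slow_sub (slow_sub (slow_sub (slow_add (slow_add E0 E3) (slow_mul hes (slow_mul E0 E3))) E1)
        E2) (slow_mul hes (slow_mul E1 E2))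
    have hT1 := (D.tiny.mul_slow E1).lt hM (c := 1/2) (by norm_num)
    have hT2 := (D.tiny.mul_slow E2).lt hM (c := 1/2) (by norm_num)
    refine slow_of_le (slow_mul (slow_const 4) hD) ?_
    filter_upwards [hT1, hT2] with i h1 h2
    have h3 : kap u0 u1 u2 u3 i * ((1 + e i * t1 i) * (1 + e i * t2 i))
        = t0 i + t3 i + e i * (t0 i * t3 i) - t1 i - t2 i - e i * (t1 i * t2 i) := by
      have := R i
      rw [G0, G1, G2, G3] at this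
      apply mul_left_cancel₀ (hε i)
      linear_combination -this
    have h4 : ∀ z : ℂ, ‖z‖ < 1/2 → 1/2 ≤ ‖1 + z‖ := by
      intro z hz
      have := norm_sub_norm_le (1:ℂ) (-z)
      rw [norm_neg, norm_one, sub_neg_eq_add] at this
      linarith
    have h5 : 1/2 ≤ ‖1 + e i * t1 i‖ := h4 _ h1
    have h6 : 1/2 ≤ ‖1 + e i * t2 i‖ := h4 _ h2
    rw [← h3, norm_mul, norm_mul, norm_mul]
    have h7 : (1/4 : ℝ) ≤ ‖1 + e i * t1 i‖ * ‖1 + e i * t2 i‖ := by nlinarith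
    have h8 : ‖(4:ℂ)‖ = 4 := by norm_num
    rw [h8]
    nlinarith [norm_nonneg (kap u0 u1 u2 u3 i)]
  refine ⟨hkap, ?_⟩
  -- remainders
  set p0 : ℕ → ℂ := fun i => z0 i^6 * r0 i with hp0
  set p1 : ℕ → ℂ := fun i => z1 i^6 * r1 i with hp1
  set p2 : ℕ → ℂ := fun i => z2 i^6 * r2 i with hp2
  set p3 : ℕ → ℂ := fun i => z3 i^6 * r3 i with hp3
  have sp0 : p0 ∈ Slow M hM := slow_mul (slow_pow D.s0 6) sr0
  have sp1 : p1 ∈ Slow M hM := slow_mul (slow_pow D.s1 6) sr1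
  have sp2 : p2 ∈ Slow M hM := slow_mul (slow_pow D.s2 6) sr2
  have sp3 : p3 ∈ Slow M hM := slow_mul (slow_pow D.s3 6) sr3
  have hone : (fun i => 1 + kap u0 u1 u2 u3 i * e i) ∈ Slow M hM :=
    slow_add (slow_const 1) (slow_mul hkap hes)
  refine ⟨fun i => ((1 + kap u0 u1 u2 u3 i * e i)^2)^5 *
    ((1 + kap u0 u1 u2 u3 i * e i) * (XX (z1 i) (z2 i) (e i) + p1 i * T5 (e i * z2 i)
      + p2 i * T5 (e i * z1 i) + e i^6 * (p1 i * p2 i))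
      - (XX (z0 i) (z3 i) (e i) + p0 i * T5 (e i * z3 i)
      + p3 i * T5 (e i * z0 i) + e i^6 * (p0 i * p3 i))), ?_, ?_⟩
  · refine slow_mul (slow_pow (slow_pow hone 2) 5) (slow_sub (slow_mul hone ?_) ?_)
    · exact slow_add (slow_add (slow_add (XX_slow D.s1 D.s2 hes)
        (slow_mul sp1 (T5_slow hes D.s2))) (slow_mul sp2 (T5_slow hes D.s1)))
        (slow_mul (slow_pow hes 6) (slow_mul sp1 sp2))
    · exact slow_add (slow_add (slow_add (XX_slow D.s0 D.s3 hes)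
        (slow_mul sp0 (T5_slow hes D.s3))) (slow_mul sp3 (T5_slow hes D.s0)))
        (slow_mul (slow_pow hes 6) (slow_mul sp0 sp3))
  · intro i
    have h0 := D.h0 i
    have h1 := D.h1 i
    have h2 := D.h2 i
    have h3 := D.h3 i
    have hy1 : 1 + kap u0 u1 u2 u3 i * e i = (u1 i * u2 i)/(u0 i * u3 i) := by
      simp only [kap, he]
      field_simp
      ring
    have hy0 : 1 + kap u0 u1 u2 u3 i * e i ≠ 0 := by
      rw [hy1]
      exact div_ne_zero (mul_ne_zero h1 h2) (mul_ne_zero h0 h3)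
    set Y := (1 + kap u0 u1 u2 u3 i * e i)^2 with hY
    have hY0 : Y ≠ 0 := pow_ne_zero 2 hy0
    have hzz03 : z0 i * z3 i = 1 / Y := by
      rw [hY, hy1]
      simp only [hz0, hz3]
      field_simp
    have hzz12 : z1 i * z2 i = 1 := by
      simp only [hz1, hz2]
      field_simp
    have hN : z0 i + z3 i = NN u0 u1 u2 u3 i / Y := by
      rw [eq_div_iff hY0]
      rfl
    have hb : z1 i + z2 i = bb u1 u2 i := rfl
    have m03 := T5_mul (z0 i) (z3 i) (e i)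
    have m12 := T5_mul (z1 i) (z2 i) (e i)
    rw [hzz03, hN] at m03
    rw [hzz12, hb] at m12
    have hW := WW_eq (NN u0 u1 u2 u3 i) Y (e i) hY0
    have hRi := R i
    simp only [GG] at hRi
    change WW (NN u0 u1 u2 u3 i) Y (e i) - Y^5 * ((1 + kap u0 u1 u2 u3 i * e i) * F5 (bb u1 u2 i) 1 (e i)) = _
    rw [← hW]
    simp only [hp0, hp1, hp2, hp3]
    linear_combination (Y^5) * hRi - (Y^5) * m03 + (Y^5) * (1 + kap u0 u1 u2 u3 i * e i) * m12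

/-- expansion for arbitrary slow decompositions -/
lemma level (D : Data O M hM u0 u1 u2 u3) {a0 a1 b0 b1 : ℕ → ℂ}
    (ha0 : a0 ∈ Slow M hM) (ha1 : a1 ∈ Slow M hM) (hb0 : b0 ∈ Slow M hM) (hb1 : b1 ∈ Slow M hM)
    (hN : ∀ i, NN u0 u1 u2 u3 i = a0 i + a1 i * (u1 i * u2 i))
    (hb : ∀ i, bb u1 u2 i = b0 i + b1 i * (u1 i * u2 i)) :
    ∃ S ∈ Slow M hM, ∀ i,
      P1 (kap u0 u1 u2 u3 i) (a0 i) (a1 i) (b0 i) (b1 i)
      + P2 (kap u0 u1 u2 u3 i) (a0 i) (a1 i) (b0 i) (b1 i) * (u1 i * u2 i)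
      + P3 (kap u0 u1 u2 u3 i) (a0 i) (a1 i) (b0 i) (b1 i) * (u1 i * u2 i)^2
      + P4 (kap u0 u1 u2 u3 i) (a0 i) (a1 i) (b0 i) (b1 i) * (u1 i * u2 i)^3
      + P5 (kap u0 u1 u2 u3 i) (a0 i) (a1 i) (b0 i) (b1 i) * (u1 i * u2 i)^4
      = (u1 i * u2 i)^5 * S i := by
  obtain ⟨hk, S, hS, hrel⟩ := basic D
  have hes : (fun i => u1 i * u2 i) ∈ Slow M hM := D.tiny.slow
  refine ⟨fun i => 51975 * S i - Rst (kap u0 u1 u2 u3 i) (a0 i) (a1 i) (b0 i) (b1 i) (u1 i * u2 i),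
    slow_sub (slow_mul (slow_const _) hS) (Rst_mem (Slow M hM) hk ha0 ha1 hb0 hb1 hes), ?_⟩
  intro i
  have hε : u1 i * u2 i ≠ 0 := mul_ne_zero (D.h1 i) (D.h2 i)
  have h1 := hrel i
  rw [hN i, hb i] at h1
  have h2 := big (kap u0 u1 u2 u3 i) (a0 i) (a1 i) (b0 i) (b1 i) (u1 i * u2 i)
  rw [h1] at h2
  apply mul_left_cancel₀ hε
  linear_combination -h2

lemma NN_slow (D : Data O M hM u0 u1 u2 u3) : NN u0 u1 u2 u3 ∈ Slow M hM := by
  obtain ⟨hk, -⟩ := basic D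
  have hes : (fun i => u1 i * u2 i) ∈ Slow M hM := D.tiny.slow
  exact slow_mul (slow_add D.s0 D.s3) (slow_pow (slow_add (slow_const 1) (slow_mul hk hes)) 2)

lemma bb_slow (D : Data O M hM u0 u1 u2 u3) : bb u1 u2 ∈ Slow M hM := slow_add D.s1 D.s2

lemma cc_slow (D : Data O M hM u0 u1 u2 u3) : cc u0 u1 u2 u3 ∈ Slow M hM := by
  obtain ⟨hk, -⟩ := basic D
  have hes : (fun i => u1 i * u2 i) ∈ Slow M hM := D.tiny.slow
  have hz : (fun _ => (0:ℂ)) ∈ Slow M hM := slow_const 0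
  obtain ⟨S, hS, h⟩ := level D (NN_slow D) hz (bb_slow D) hz (fun i => by simp) (fun i => by simp)
  have h2 := P2_mem (Slow M hM) hk (NN_slow D) hz (bb_slow D) hz
  have h3 := P3_mem (Slow M hM) hk (NN_slow D) hz (bb_slow D) hz
  have h4 := P4_mem (Slow M hM) hk (NN_slow D) hz (bb_slow D) hz
  have h5 := P5_mem (Slow M hM) hk (NN_slow D) hz (bb_slow D) hz
  have h6 : (fun i => (u1 i * u2 i)^4 * S i
      - P2 (kap u0 u1 u2 u3 i) (NN u0 u1 u2 u3 i) 0 (bb u1 u2 i) 0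
      - P3 (kap u0 u1 u2 u3 i) (NN u0 u1 u2 u3 i) 0 (bb u1 u2 i) 0 * (u1 i * u2 i)
      - P4 (kap u0 u1 u2 u3 i) (NN u0 u1 u2 u3 i) 0 (bb u1 u2 i) 0 * (u1 i * u2 i)^2
      - P5 (kap u0 u1 u2 u3 i) (NN u0 u1 u2 u3 i) 0 (bb u1 u2 i) 0 * (u1 i * u2 i)^3) ∈ Slow M hM :=
    slow_sub (slow_sub (slow_sub (slow_sub (slow_mul (slow_pow hes 4) hS) h2)
      (slow_mul h3 hes)) (slow_mul h4 (slow_pow hes 2))) (slow_mul h5 (slow_pow hes 3))
  refine slow_congr (slow_div_const h6 17325) (Eventually.of_forall fun i => ?_)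
  have hε : u1 i * u2 i ≠ 0 := mul_ne_zero (D.h1 i) (D.h2 i)
  have e := h i
  have e1 : P1 (kap u0 u1 u2 u3 i) (NN u0 u1 u2 u3 i) 0 (bb u1 u2 i) 0
      = 17325 * (NN u0 u1 u2 u3 i - bb u1 u2 i - 3 * kap u0 u1 u2 u3 i) := by
    unfold P1 P1_0; ring
  rw [e1] at e
  unfold cc
  rw [div_eq_iff hε]
  field_simp
  linear_combination e

/-- second level -/
lemma level2 (D : Data O M hM u0 u1 u2 u3) :
    (fun i => (cc u0 u1 u2 u3 i + 3/5 * kap u0 u1 u2 u3 i * bb u1 u2 i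
      - 3/5 * (kap u0 u1 u2 u3 i)^2) / (u1 i * u2 i)) ∈ Slow M hM := by
  obtain ⟨hk, -⟩ := basic D
  have hes : (fun i => u1 i * u2 i) ∈ Slow M hM := D.tiny.slow
  have hz : (fun _ => (0:ℂ)) ∈ Slow M hM := slow_const 0
  have hc := cc_slow D
  have hN0 : (fun i => bb u1 u2 i + 3 * kap u0 u1 u2 u3 i) ∈ Slow M hM :=
    slow_add (bb_slow D) (slow_mul (slow_const 3) hk)
  have hε : ∀ i, u1 i * u2 i ≠ 0 := fun i => mul_ne_zero (D.h1 i) (D.h2 i)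
  obtain ⟨S, hS, h⟩ := level D hN0 hc (bb_slow D) hz (fun i => by
    unfold cc; rw [div_mul_cancel₀ _ (hε i)]; ring) (fun i => by simp)
  have h3 := P3_mem (Slow M hM) hk hN0 hc (bb_slow D) hz
  have h4 := P4_mem (Slow M hM) hk hN0 hc (bb_slow D) hz
  have h5 := P5_mem (Slow M hM) hk hN0 hc (bb_slow D) hz
  have h6 := slow_sub (slow_sub (slow_sub (slow_mul (slow_pow hes 3) hS) h3)
      (slow_mul h4 hes)) (slow_mul h5 (slow_pow hes 2))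
  refine slow_congr (slow_div_const h6 17325) (Eventually.of_forall fun i => ?_)
  have e := h i
  have e1 : P1 (kap u0 u1 u2 u3 i) (bb u1 u2 i + 3 * kap u0 u1 u2 u3 i) (cc u0 u1 u2 u3 i)
      (bb u1 u2 i) 0 = 0 := by
    unfold P1 P1_0; ring
  have e2 : P2 (kap u0 u1 u2 u3 i) (bb u1 u2 i + 3 * kap u0 u1 u2 u3 i) (cc u0 u1 u2 u3 i)
      (bb u1 u2 i) 0 = 17325 * (cc u0 u1 u2 u3 i + 3/5 * kap u0 u1 u2 u3 i * bb u1 u2 i
      - 3/5 * (kap u0 u1 u2 u3 i)^2) := by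
    unfold P2 P2_0; ring
  rw [e1, e2] at e
  rw [div_eq_iff (hε i)]
  apply mul_left_cancel₀ (hε i)
  linear_combination e / 17325

lemma kap_kt (D : Data O M hM u0 u1 u2 u3) : kap u0 u1 u2 u3 ∈ Kt O M hM := by
  have h := kt_sub (kt_mul D.k0 D.k3) (kt_mul D.k1 D.k2)
  convert h using 1
  funext i
  unfold kap
  rw [mul_inv, mul_inv]

lemma cc_kt (D : Data O M hM u0 u1 u2 u3) : cc u0 u1 u2 u3 ∈ Kt O M hM := by
  have h := kt_sub (kt_sub (kt_sub (kt_add (kt_pow D.k0 2) (kt_pow D.k3 2)) (kt_pow D.k1 2))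
    (kt_pow D.k2 2)) (kt_mul (kt_natCast 3) (kt_mul (kap_kt D) (kt_mul D.k1 D.k2)))
  convert h using 1
  funext i
  have h0 := D.h0 i
  have h1 := D.h1 i
  have h2 := D.h2 i
  have h3 := D.h3 i
  simp only [cc, NN, bb, kap]
  push_cast
  field_simp
  ring

/-- Case `κ = 0`. -/
lemma case_zero (D : Data O M hM u0 u1 u2 u3) (hk0 : ∀ i, kap u0 u1 u2 u3 i = 0) :
    ∀ᶠ i in atTop, cc u0 u1 u2 u3 i = 0 := by
  refine kt_eq_zero D.hO (cc_kt D) D.tiny (fun i => mul_ne_zero (D.h1 i) (D.h2 i)) ?_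
  have h := level2 D
  simpa [hk0] using h

lemma final_alg (k b g : ℂ) (hk : k ≠ 0)
    (h3 : P3 k (b+3*k) (g + 3/5*k*(k-b)) b g = 0)
    (h4 : P4 k (b+3*k) (g + 3/5*k*(k-b)) b g = 0)
    (h5 : P5 k (b+3*k) (g + 3/5*k*(k-b)) b g = 0) :
    4*k^2 = 13 ∨ 15*k^4 - 180*k^2 + 344 = 0 := by
  have hg : g = (115 + 12*k^2 + 12*k*b - 24*b^2)/105 := by
    have e : P3 k (b+3*k) (g + 3/5*k*(k-b)) b g
        = k * (99 * (105*g - 115 - 12*k^2 - 12*k*b + 24*b^2)) := by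
      unfold P3 P3_0; ring
    rw [e] at h3
    have := (mul_eq_zero.mp h3).resolve_left hk
    linear_combination this / 99 / 105
  subst hg
  have e4 : P4 k (b+3*k) ((115 + 12*k^2 + 12*k*b - 24*b^2)/105 + 3/5*k*(k-b)) b
      ((115 + 12*k^2 + 12*k*b - 24*b^2)/105)
      = k * (-(396/35) * ((3*k+2*b) * ((k-b)*(4*k+b) - 20))) := by
    unfold P4 P4_0 P4_1; ring
  have e5 : P5 k (b+3*k) ((115 + 12*k^2 + 12*k*b - 24*b^2)/105 + 3/5*k*(k-b)) b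
      ((115 + 12*k^2 + 12*k*b - 24*b^2)/105)
      = k * (((-11160*b^2 - 80604*k*b - 95976*k^2 + 20400) * ((k-b)*(4*k+b) - 20)
        - 117600*k^2 + 382200)/245) := by
    unfold P5 P5_0 P5_1; ring
  rw [e4] at h4
  rw [e5] at h5
  have f4 := (mul_eq_zero.mp h4).resolve_left hk
  have f5 := (mul_eq_zero.mp h5).resolve_left hk
  have f4' : (3*k+2*b) * ((k-b)*(4*k+b) - 20) = 0 := by linear_combination f4 * (-35/396)
  rcases mul_eq_zero.mp f4' with h | h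
  · right
    have hb : b = -3/2*k := by linear_combination h/2
    subst hb
    linear_combination (-49/15) * f5
  · left
    rw [h] at f5
    linear_combination (-245/29400) * f5

/-- Case `κ ≠ 0`. -/
lemma case_ne (D : Data O M hM u0 u1 u2 u3) (hk0 : ∀ i, kap u0 u1 u2 u3 i ≠ 0) :
    ∃ i, 4 * (kap u0 u1 u2 u3 i)^2 = 13 ∨
      15 * (kap u0 u1 u2 u3 i)^4 - 180 * (kap u0 u1 u2 u3 i)^2 + 344 = 0 := by
  obtain ⟨hk, -⟩ := basic D
  have hes : (fun i => u1 i * u2 i) ∈ Slow M hM := D.tiny.slow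
  have hε : ∀ i, u1 i * u2 i ≠ 0 := fun i => mul_ne_zero (D.h1 i) (D.h2 i)
  have hkk := kap_kt D
  have hki := slow_inv D.hO hkk hk0
  have hkik := kt_inv hkk hk hk0
  have hc := cc_slow D
  have hck := cc_kt D
  set κ := kap u0 u1 u2 u3 with hκ
  set c := cc u0 u1 u2 u3 with hcdef
  -- β
  set β : ℕ → ℂ := fun i => κ i - (5 * (c i * (κ i)⁻¹)) / ((3:ℕ):ℂ) with hβ
  have hβs : β ∈ Slow M hM :=
    slow_sub hk (slow_div_const (slow_mul (slow_const 5) (slow_mul hc hki)) _)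
  have hβk : β ∈ Kt O M hM :=
    kt_sub hkk (kt_div_nat (kt_mul (kt_natCast 5) (kt_mul hck hkik)) 3 (by norm_num))
  -- γ
  set γ : ℕ → ℂ := fun i => (bb u1 u2 i - β i) / (u1 i * u2 i) with hγ
  have hγs : γ ∈ Slow M hM := by
    have h := slow_mul (slow_div_const (slow_mul (slow_const 5) hki) 3) (level2 D)
    refine slow_congr h (Eventually.of_forall fun i => ?_)
    have := hk0 i
    have := hε i
    simp only [hγ, hβ]
    push_cast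
    rw [← hκ, ← hcdef]
    field_simp
    ring
  have hγk : γ ∈ Kt O M hM := by
    have h := kt_sub (kt_add (kt_pow D.k1 2) (kt_pow D.k2 2))
      (kt_mul hβk (kt_mul D.k1 D.k2))
    convert h using 1
    funext i
    have h1 := D.h1 i
    have h2 := D.h2 i
    simp only [hγ, bb]
    field_simp
    ring
  -- level 3
  have h3k : (fun i => β i + ((3:ℕ):ℂ) * κ i) ∈ Kt O M hM := kt_add hβk (kt_mul (kt_natCast 3) hkk)
  have h3s : (fun i => β i + ((3:ℕ):ℂ) * κ i) ∈ Slow M hM := slow_add hβs (slow_mul (slow_const _) hk)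
  have hgcs : (fun i => γ i + c i) ∈ Slow M hM := slow_add hγs hc
  have hgck : (fun i => γ i + c i) ∈ Kt O M hM := kt_add hγk hck
  obtain ⟨S, hS, h⟩ := level D h3s hgcs hβs hγs (fun i => by
      have := hε i
      have e1 : bb u1 u2 i = β i + γ i * (u1 i * u2 i) := by
        simp only [hγ]; rw [div_mul_cancel₀ _ this]; ring
      have e2 : NN u0 u1 u2 u3 i = bb u1 u2 i + 3 * κ i + c i * (u1 i * u2 i) := by
        rw [hcdef, hκ]; unfold cc; rw [div_mul_cancel₀ _ this]; ring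
      rw [e2, e1]; push_cast; ring)
    (fun i => by
      have := hε i
      simp only [hγ]; rw [div_mul_cancel₀ _ this]; ring)
  rw [← hκ] at h
  have q4 := P4_mem (Slow M hM) hk h3s hgcs hβs hγs
  have q5 := P5_mem (Slow M hM) hk h3s hgcs hβs hγs
  have r3 := P3_mem (Kt O M hM) hkk h3k hgck hβk hγk
  have r4 := P4_mem (Kt O M hM) hkk h3k hgck hβk hγk
  have r5 := P5_mem (Kt O M hM) hkk h3k hgck hβk hγk
  have hcβ : ∀ i, c i = 3/5 * κ i * (κ i - β i) := by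
    intro i
    have := hk0 i
    simp only [hβ]
    push_cast
    field_simp
    ring
  -- remove P1, P2
  have e : ∀ i, P3 (κ i) (β i + ((3:ℕ):ℂ) * κ i) (γ i + c i) (β i) (γ i)
      + P4 (κ i) (β i + ((3:ℕ):ℂ) * κ i) (γ i + c i) (β i) (γ i) * (u1 i * u2 i)
      + P5 (κ i) (β i + ((3:ℕ):ℂ) * κ i) (γ i + c i) (β i) (γ i) * (u1 i * u2 i)^2
      = (u1 i * u2 i)^3 * S i := by
    intro i
    have hi := h i
    have e1 : P1 (κ i) (β i + ((3:ℕ):ℂ) * κ i) (γ i + c i) (β i) (γ i) = 0 := by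
      unfold P1 P1_0; push_cast; ring
    have e2 : P2 (κ i) (β i + ((3:ℕ):ℂ) * κ i) (γ i + c i) (β i) (γ i) = 0 := by
      have := hcβ i
      have e3 : P2 (κ i) (β i + ((3:ℕ):ℂ) * κ i) (γ i + c i) (β i) (γ i)
        = 17325 * (c i - 3/5 * κ i * (κ i - β i)) := by
        unfold P2 P2_0; push_cast; ring
      rw [e3, ← this]; ring
    rw [e1, e2] at hi
    apply mul_left_cancel₀ (pow_ne_zero 2 (hε i))
    linear_combination hi
  -- P3 = 0 eventually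
  have z3 : ∀ᶠ i in atTop, P3 (κ i) (β i + ((3:ℕ):ℂ) * κ i) (γ i + c i) (β i) (γ i) = 0 := by
    refine kt_eq_zero D.hO r3 D.tiny hε ?_
    refine slow_congr (slow_sub (slow_sub (slow_mul (slow_pow hes 2) hS) q4) (slow_mul q5 hes))
      (Eventually.of_forall fun i => ?_)
    rw [div_eq_iff (hε i)]
    linear_combination e i
  have z4 : ∀ᶠ i in atTop, P4 (κ i) (β i + ((3:ℕ):ℂ) * κ i) (γ i + c i) (β i) (γ i) = 0 := by
    refine kt_eq_zero D.hO r4 D.tiny hε ?_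
    refine slow_congr (slow_sub (slow_mul hes hS) q5) ?_
    filter_upwards [z3] with i hi
    rw [div_eq_iff (hε i)]
    have := e i
    rw [hi] at this
    apply mul_left_cancel₀ (hε i)
    linear_combination this
  have z5 : ∀ᶠ i in atTop, P5 (κ i) (β i + ((3:ℕ):ℂ) * κ i) (γ i + c i) (β i) (γ i) = 0 := by
    refine kt_eq_zero D.hO r5 D.tiny hε ?_
    refine slow_congr hS ?_
    filter_upwards [z3, z4] with i hi hi4
    rw [div_eq_iff (hε i)]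
    have := e i
    rw [hi, hi4] at this
    apply mul_left_cancel₀ (pow_ne_zero 2 (hε i))
    linear_combination this
  obtain ⟨i, hi3, hi4, hi5⟩ := (z3.and (z4.and z5)).exists
  refine ⟨i, ?_⟩
  rw [hcβ i] at hi3 hi4 hi5
  push_cast at hi3 hi4 hi5
  exact final_alg (κ i) (β i) (γ i) (hk0 i) hi3 hi4 hi5

end

end Pool.Agent.H472R2
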