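import Pool.Agent.H472R2.Core

/-! The near-one theorem for discrete subrings of `ℂ`. -/

set_option autoImplicit false
set_option maxHeartbeats 1000000

noncomputable section

open Filter

namespace Pool.Agent.H472R2

lemma discr_irr (O : Subring ℂ) (hO : ∀ x ∈ O, x ≠ 0 → 1 ≤ ‖x‖) (w : ℂ) (hw : w ∈ O)
    (hw0 : w ≠ 0) (ρ : ℝ) (hρ : Irrational ρ) (h : (ρ : ℂ) * w ∈ O) : False := by
  obtain ⟨n, hn⟩ := exists_nat_gt ‖w‖
  have hn0 : 0 < n := by
    rcases Nat.eq_zero_or_pos n with h0 | h0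
    · subst h0
      have := norm_nonneg w
      simp at hn
      linarith
    · exact h0
  obtain ⟨k, hk0, -, hk⟩ := Real.exists_nat_abs_mul_sub_round_le ρ hn0
  set r : ℤ := round ((k:ℝ) * ρ) with hr
  have hz : ((k : ℂ) * ρ - r) * w ∈ O := by
    have h1 : (k : ℂ) * ((ρ : ℂ) * w) ∈ O := O.mul_mem (natCast_mem O k) h
    have h2 : (r : ℂ) * w ∈ O := O.mul_mem (intCast_mem O r) hw
    have := O.sub_mem h1 h2
    convert this using 1
    ring
  have hne : ((k : ℂ) * ρ - r) * w ≠ 0 := by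
    refine mul_ne_zero ?_ hw0
    intro h0
    have h1 : (k : ℝ) * ρ - r = 0 := by exact_mod_cast h0
    have h2 : ρ = ((r : ℚ) / (k : ℚ) : ℚ) := by
      push_cast
      rw [eq_div_iff (by exact_mod_cast hk0.ne')]
      linarith
    exact hρ ⟨_, h2.symm⟩
  have h1 := hO _ hz hne
  rw [norm_mul] at h1
  have h2 : ‖(k : ℂ) * ρ - r‖ = |(k:ℝ) * ρ - r| := by
    have : (k : ℂ) * ρ - r = (((k:ℝ) * ρ - r : ℝ) : ℂ) := by push_cast; ring
    rw [this, Complex.norm_real, Real.norm_eq_abs]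
  rw [h2] at h1
  have h3 : |(k:ℝ) * ρ - r| * ‖w‖ ≤ 1 / ((n:ℝ) + 1) * ‖w‖ :=
    mul_le_mul_of_nonneg_right hk (norm_nonneg w)
  have h4 : 1 / ((n:ℝ) + 1) * ‖w‖ < 1 := by
    rw [div_mul_eq_mul_div, one_mul, div_lt_one (by positivity)]
    linarith
  linarith

lemma arith1 (O : Subring ℂ) (hO : ∀ x ∈ O, x ≠ 0 → 1 ≤ ‖x‖) (p q : ℂ) (hp : p ∈ O)
    (hq : q ∈ O) (hq0 : q ≠ 0) : 4 * p^2 ≠ 13 * q^2 := by
  intro h
  have h13 : Irrational (√13) := by
    have := Nat.Prime.irrational_sqrt (p := 13) (by norm_num)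
    simpa using this
  have hs : ((√13 : ℝ) : ℂ)^2 = 13 := by
    rw [← Complex.ofReal_pow, Real.sq_sqrt (by norm_num)]
    norm_num
  have h2 : (2*p - (√13 : ℝ) * q) * (2*p + (√13 : ℝ) * q) = 0 := by
    linear_combination h - q^2 * hs
  have h2p : 2 * p ∈ O := O.mul_mem (by exact_mod_cast natCast_mem O 2) hp
  rcases mul_eq_zero.mp h2 with h3 | h3
  · refine discr_irr O hO q hq hq0 _ h13 ?_
    have : ((√13 : ℝ) : ℂ) * q = 2 * p := by linear_combination -h3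
    rw [this]; exact h2p
  · refine discr_irr O hO q hq hq0 _ h13 ?_
    have : ((√13 : ℝ) : ℂ) * q = -(2 * p) := by linear_combination h3
    rw [this]; exact O.neg_mem h2p

lemma arith2 (O : Subring ℂ) (hO : ∀ x ∈ O, x ≠ 0 → 1 ≤ ‖x‖) (p q : ℂ) (hp : p ∈ O)
    (hq : q ∈ O) (hq0 : q ≠ 0) : 15 * p^4 - 180 * p^2 * q^2 + 344 * q^4 ≠ 0 := by
  intro h
  have h13 : Irrational (√11760) := by
    have : ¬ IsSquare (11760 : ℕ) := by
      rintro ⟨r, hr⟩
      have h1 : r < 109 := by nlinarith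
      have h2 : 108 < r := by nlinarith
      omega
    have h2 := irrational_sqrt_natCast_iff.mpr this
    simpa using h2
  have hs : ((√11760 : ℝ) : ℂ)^2 = 11760 := by
    rw [← Complex.ofReal_pow, Real.sq_sqrt (by norm_num)]
    norm_num
  have h2 : ((30*p^2 - 180*q^2) - (√11760 : ℝ) * q^2) * ((30*p^2 - 180*q^2) + (√11760 : ℝ) * q^2)
      = 0 := by
    linear_combination 60 * h - q^4 * hs
  have h2p : 30 * p^2 - 180*q^2 ∈ O :=
    O.sub_mem (O.mul_mem (by exact_mod_cast natCast_mem O 30) (O.pow_mem hp 2))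
      (O.mul_mem (by exact_mod_cast natCast_mem O 180) (O.pow_mem hq 2))
  rcases mul_eq_zero.mp h2 with h3 | h3
  · refine discr_irr O hO (q^2) (O.pow_mem hq 2) (pow_ne_zero 2 hq0) _ h13 ?_
    have : ((√11760 : ℝ) : ℂ) * q^2 = 30*p^2 - 180*q^2 := by linear_combination -h3
    rw [this]; exact h2p
  · refine discr_irr O hO (q^2) (O.pow_mem hq 2) (pow_ne_zero 2 hq0) _ h13 ?_
    have : ((√11760 : ℝ) : ℂ) * q^2 = -(30*p^2 - 180*q^2) := by linear_combination h3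
    rw [this]; exact O.neg_mem h2p

/-- the hypothesis on one tuple -/
structure Tup (O : Subring ℂ) (M H : ℝ) (m n : Fin 4 → ℂ) : Prop where
  hO : ∀ x ∈ O, x ≠ 0 → 1 ≤ ‖x‖
  mO : ∀ j, m j ∈ O
  nO : ∀ j, n j ∈ O
  m0 : ∀ j, m j ≠ 0
  mM : ∀ j, ‖m j‖ ≤ M
  Hn : ∀ j, H ≤ ‖n j‖
  nH : ∀ j, ‖n j‖ ≤ M * H

lemma mkData (O : ℕ → Subring ℂ) (M H : ℕ → ℝ) (hM : ∀ i, 2 ≤ M i) (m n : ℕ → Fin 4 → ℂ)
    (hT : ∀ i, Tup (O i) (M i) (H i) (m i) (n i)) (hH : ∀ i, M i ^ (i + 2) ≤ H i)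
    (hrel : ∀ i, Lam (m i 0 / n i 0) * Lam (m i 3 / n i 3)
      = Lam (m i 1 / n i 1) * Lam (m i 2 / n i 2)) :
    Data O M hM (fun i => m i 0 / n i 0) (fun i => m i 1 / n i 1) (fun i => m i 2 / n i 2)
      (fun i => m i 3 / n i 3) := by
  have hM0 : ∀ i, 0 < M i := fun i => by linarith [hM i]
  have hH0 : ∀ i, 0 < H i := fun i => lt_of_lt_of_le (pow_pos (hM0 i) _) (hH i)
  have hn0 : ∀ i j, n i j ≠ 0 := fun i j h => by
    have := (hT i).Hn j
    rw [h, norm_zero] at this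
    linarith [hH0 i]
  have hu : ∀ i j, ‖m i j / n i j‖ ≤ M i / H i := fun i j => by
    rw [norm_div]
    exact div_le_div₀ (hM0 i).le ((hT i).mM j) (hH0 i) ((hT i).Hn j)
  have hMH : ∀ i, M i / H i ≤ 1/2 := fun i => by
    rw [div_le_iff₀ (hH0 i)]
    have h1 := hH i
    have h2 : M i ^ (i + 2) = M i * (M i * M i ^ i) := by ring
    have h3 : 1 ≤ M i ^ i := one_le_pow₀ (by linarith [hM i])
    have h4 := hM i
    nlinarith [mul_pos (hM0 i) (hM0 i)]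
  have hm1 : ∀ i j, 1 ≤ ‖m i j‖ := fun i j => (hT i).hO _ ((hT i).mO j) ((hT i).m0 j)
  have hne : ∀ i j, m i j / n i j ≠ 0 := fun i j => div_ne_zero ((hT i).m0 j) (hn0 i j)
  have hkt : ∀ j : Fin 4, (fun i => (m i j / n i j)⁻¹) ∈ Kt O M hM := fun j => by
    refine ⟨fun i => m i j, fun i => ⟨(hT i).mO j, (hT i).m0 j⟩,
      ⟨1, Eventually.of_forall fun i => by simpa using (hT i).mM j⟩, fun i => ?_⟩
    have h1 := (hT i).m0 j
    have h2 := hn0 i j
    have : (m i j / n i j)⁻¹ * m i j = n i j := by field_simp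
    rw [this]
    exact (hT i).nO j
  have hsl : ∀ j : Fin 4, (fun i => (m i j / n i j)^2 / (m i 1 / n i 1 * (m i 2 / n i 2)))
      ∈ Slow M hM := fun j => by
    refine ⟨4, Eventually.of_forall fun i => ?_⟩
    have h1 : ‖(m i j / n i j)^2‖ ≤ (M i / H i)^2 := by
      rw [norm_pow]
      exact pow_le_pow_left₀ (norm_nonneg _) (hu i j) 2
    have h2 : ‖(m i 1 / n i 1 * (m i 2 / n i 2))⁻¹‖ ≤ (M i * H i)^2 := by
      rw [norm_inv, norm_mul, norm_div, norm_div]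
      have e1 : (‖m i 1‖ / ‖n i 1‖ * (‖m i 2‖ / ‖n i 2‖))⁻¹
          = (‖n i 1‖ / ‖m i 1‖) * (‖n i 2‖ / ‖m i 2‖) := by
        rw [mul_inv, inv_div, inv_div]
      rw [e1, sq]
      have e2 : ∀ j, ‖n i j‖ / ‖m i j‖ ≤ M i * H i := fun j => by
        rw [div_le_iff₀ (by linarith [hm1 i j])]
        have := (hT i).nH j
        have h5 := hm1 i j
        have h6 : 0 ≤ M i * H i := (mul_pos (hM0 i) (hH0 i)).le
        nlinarith
      exact mul_le_mul (e2 1) (e2 2) (by positivity) (mul_pos (hM0 i) (hH0 i)).le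
    change ‖(m i j / n i j)^2 / (m i 1 / n i 1 * (m i 2 / n i 2))‖ ≤ M i ^ 4
    rw [div_eq_mul_inv, norm_mul]
    calc ‖(m i j / n i j)^2‖ * ‖(m i 1 / n i 1 * (m i 2 / n i 2))⁻¹‖
        ≤ (M i / H i)^2 * (M i * H i)^2 :=
          mul_le_mul h1 h2 (norm_nonneg _) (by positivity)
      _ = M i ^ 4 := by
        have := (hH0 i).ne'
        field_simp
  refine ⟨fun i => (hT i).hO, fun i => hne i 0, fun i => hne i 1, fun i => hne i 2,
    fun i => hne i 3, fun i => (hu i 0).trans (hMH i), fun i => (hu i 1).trans (hMH i),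
    fun i => (hu i 2).trans (hMH i), fun i => (hu i 3).trans (hMH i), hkt 0, hkt 1, hkt 2, hkt 3,
    hsl 0, hsl 1, hsl 2, hsl 3, ?_, hrel⟩
  intro A
  filter_upwards [eventually_ge_atTop A] with i hi
  have h1 : ‖m i 1 / n i 1 * (m i 2 / n i 2)‖ ≤ (M i / H i)^2 := by
    rw [norm_mul, sq]
    exact mul_le_mul (hu i 1) (hu i 2) (norm_nonneg _) (div_pos (hM0 i) (hH0 i)).le
  have h2 : M i ^ A * ‖m i 1 / n i 1 * (m i 2 / n i 2)‖ ≤ M i ^ A * (M i / H i)^2 :=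
    mul_le_mul_of_nonneg_left h1 (pow_pos (hM0 i) _).le
  refine lt_of_le_of_lt h2 ?_
  have h3 := hH i
  have h4 : M i ^ A * (M i / H i)^2 = (M i ^ (A + 2)) / (H i)^2 := by
    rw [div_pow, pow_add]; ring
  rw [h4, div_lt_one (pow_pos (hH0 i) 2)]
  have h5 : M i ^ (A + 2) ≤ M i ^ (i + 2) := pow_le_pow_right₀ (by linarith [hM i]) (by omega)
  have h6 : (1:ℝ) < H i := by
    have : (1:ℝ) < M i ^ (i+2) := one_lt_pow₀ (by linarith [hM i]) (by omega)
    linarith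
  nlinarith [hH0 i]

/-- The near-one theorem: discrete subrings of `ℂ`. -/
theorem near_one : ∃ D : ℕ, ∀ (O : Subring ℂ) (M H : ℝ) (m n : Fin 4 → ℂ), 2 ≤ M → M ^ D ≤ H →
    Tup O M H m n →
    Lam (m 0 / n 0) * Lam (m 3 / n 3) = Lam (m 1 / n 1) * Lam (m 2 / n 2) →
    (m 0 / n 0) * (m 3 / n 3) = (m 1 / n 1) * (m 2 / n 2) ∧
    (m 0 / n 0)^2 + (m 3 / n 3)^2 = (m 1 / n 1)^2 + (m 2 / n 2)^2 := by
  -- part A
  have hA : ∃ D : ℕ, ∀ (O : Subring ℂ) (M H : ℝ) (m n : Fin 4 → ℂ), 2 ≤ M → M ^ D ≤ H →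
      Tup O M H m n →
      Lam (m 0 / n 0) * Lam (m 3 / n 3) = Lam (m 1 / n 1) * Lam (m 2 / n 2) →
      (m 0 / n 0 * (m 3 / n 3))⁻¹ - (m 1 / n 1 * (m 2 / n 2))⁻¹ = 0 := by
    by_contra hcon
    push Not at hcon
    choose O M H m n hM hH hT hrel hne using fun i : ℕ => hcon (i + 2)
    have D := mkData O M H hM m n hT hH hrel
    obtain ⟨i, hi⟩ := case_ne D hne
    obtain ⟨q, hq, -, hkq⟩ := kap_kt D
    obtain ⟨hqO, hq0⟩ := hq i
    have hpO := hkq i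
    set κ := kap (fun i => m i 0 / n i 0) (fun i => m i 1 / n i 1) (fun i => m i 2 / n i 2)
      (fun i => m i 3 / n i 3) i
    rcases hi with hi | hi
    · exact arith1 (O i) (hT i).hO (κ * q i) (q i) hpO hqO hq0 (by linear_combination (q i)^2 * hi)
    · exact arith2 (O i) (hT i).hO (κ * q i) (q i) hpO hqO hq0 (by linear_combination (q i)^4 * hi)
  -- part B
  have hB : ∃ D : ℕ, ∀ (O : Subring ℂ) (M H : ℝ) (m n : Fin 4 → ℂ), 2 ≤ M → M ^ D ≤ H →
      Tup O M H m n →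
      Lam (m 0 / n 0) * Lam (m 3 / n 3) = Lam (m 1 / n 1) * Lam (m 2 / n 2) →
      (m 0 / n 0 * (m 3 / n 3))⁻¹ - (m 1 / n 1 * (m 2 / n 2))⁻¹ = 0 →
      (m 0 / n 0)^2 + (m 3 / n 3)^2 = (m 1 / n 1)^2 + (m 2 / n 2)^2 := by
    by_contra hcon
    push Not at hcon
    choose O M H m n hM hH hT hrel hne hne2 using fun i : ℕ => hcon (i + 2)
    have D := mkData O M H hM m n hT hH hrel
    obtain ⟨i, hi⟩ := (case_zero D hne).exists
    apply hne2 i
    have h0 := D.h0 i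
    have h1 := D.h1 i
    have h2 := D.h2 i
    have h3 := D.h3 i
    have hk : kap (fun i => m i 0 / n i 0) (fun i => m i 1 / n i 1) (fun i => m i 2 / n i 2)
      (fun i => m i 3 / n i 3) i = 0 := hne i
    simp only [cc, NN, bb, hk] at hi
    have h12 : m i 1 / n i 1 * (m i 2 / n i 2) ≠ 0 := mul_ne_zero h1 h2
    rw [div_eq_zero_iff] at hi
    have hi' := hi.resolve_right h12
    rw [← add_div, ← add_div] at hi'
    have : ((m i 0 / n i 0)^2 + (m i 3 / n i 3)^2 - ((m i 1 / n i 1)^2 + (m i 2 / n i 2)^2))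
        / (m i 1 / n i 1 * (m i 2 / n i 2)) = 0 := by
      rw [sub_div]
      linear_combination hi'
    rw [div_eq_zero_iff] at this
    linear_combination this.resolve_right h12
  obtain ⟨D1, h1⟩ := hA
  obtain ⟨D2, h2⟩ := hB
  refine ⟨max D1 D2, fun O M H m n hM hH hT hrel => ?_⟩
  have hH1 : M ^ D1 ≤ H := (pow_le_pow_right₀ (by linarith) (le_max_left _ _)).trans hH
  have hH2 : M ^ D2 ≤ H := (pow_le_pow_right₀ (by linarith) (le_max_right _ _)).trans hH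
  have e1 := h1 O M H m n hM hH1 hT hrel
  have e2 := h2 O M H m n hM hH2 hT hrel e1
  exact ⟨inv_injective (sub_eq_zero.mp e1), e2⟩

end Pool.Agent.H472R2
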