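import Mathlib
import Pool.Agent.H476R2.Pal.SDefs
import Pool.Agent.H483R2.PalS5
import Pool.Agent.H503R2.PalS4

set_option autoImplicit false

/-!
Task Q9 of the palindrome project (helper476), by helper472: lower bound sieve at `D^(1/8)`.
Adapted from `Pool.Agent.H483R2.PalS5` (helper483).
-/

namespace Pool.Agent.H472R2.PalQ9

open Finset Filter Topology Pool.Agent.H476R2.Pal Pool.Agent.H483R2.PalS5

/-! ### Mertens for the cube of the logarithm -/

lemma mert_diff : ∃ C : ℝ, 0 ≤ C ∧ ∀ n z : ℕ, 1 ≤ n → n ≤ z →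
    ∑ p ∈ (PP z).filter (fun p => n < p), Real.log p / p ≤ Real.log z - Real.log n + C := by
  obtain ⟨C, hC⟩ := Pool.Agent.Helper923.HMertens.mertens_log
  refine ⟨2 * |C|, by positivity, fun n z hn hnz => ?_⟩
  have h1 := hC z (hn.trans hnz)
  have h2 := hC n hn
  have h3 : ∑ p ∈ (PP z).filter (fun p => n < p), Real.log p / p +
      ∑ p ∈ (Finset.Icc 1 n).filter Nat.Prime, Real.log p / p ≤
      ∑ p ∈ (Finset.Icc 1 z).filter Nat.Prime, Real.log p / p := by
    rw [← sum_union]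
    · apply sum_le_sum_of_subset_of_nonneg
      · intro p hp
        rw [mem_union, mem_filter, mem_filter, mem_PP, mem_Icc] at hp
        rw [mem_filter, mem_Icc]
        rcases hp with ⟨⟨h4, h5, _⟩, _⟩ | ⟨⟨h4, h5⟩, h6⟩
        · exact ⟨⟨h5.one_lt.le, h4.le⟩, h5⟩
        · exact ⟨⟨h4, h5.trans hnz⟩, h6⟩
      · intro p _ _
        have : 0 ≤ Real.log p := Real.log_natCast_nonneg p
        positivity
    · rw [disjoint_left]
      intro p hp hp'
      rw [mem_filter] at hp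
      rw [mem_filter, mem_Icc] at hp'
      omega
  have h4 := (abs_le.1 h1).2
  have h5 := (abs_le.1 h2).1
  have h6 := le_abs_self C
  linarith

lemma log_step {n : ℕ} (hn : 1 ≤ n) : Real.log ((n + 1 : ℕ) : ℝ) ≤ Real.log n + 1 := by
  have h0 : (0 : ℝ) < n := by exact_mod_cast hn
  have h1 : ((n + 1 : ℕ) : ℝ) ≤ n * Real.exp 1 := by
    have := Real.add_one_le_exp (1 : ℝ)
    have h2 : (1 : ℝ) ≤ n := by exact_mod_cast hn
    push_cast
    nlinarith
  calc Real.log ((n + 1 : ℕ) : ℝ) ≤ Real.log (n * Real.exp 1) :=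
        Real.log_le_log (by positivity) h1
    _ = Real.log n + 1 := by rw [Real.log_mul h0.ne' (Real.exp_pos 1).ne', Real.log_exp]

lemma quart {a b : ℝ} (ha : 0 ≤ a) (hab : a ≤ b) :
    3 / 4 * (b ^ 4 - a ^ 4) ≤ b * (b ^ 3 - a ^ 3) := by
  have hb : 0 ≤ b := ha.trans hab
  nlinarith [mul_nonneg (sq_nonneg (b - a)) (by positivity : 0 ≤ b ^ 2 + 2 * a * b + 3 * a ^ 2)]

lemma tele (z : ℕ) (hz : 1 ≤ z) (L : ℝ) :
    ∑ n ∈ Ico 1 z, (Real.log ((n + 1 : ℕ) : ℝ) ^ 3 - Real.log (n : ℝ) ^ 3) * (L - Real.log n) ≤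
      (L + 1) * Real.log z ^ 3 - 3 / 4 * Real.log z ^ 4 := by
  induction z, hz using Nat.le_induction with
  | base => simp
  | succ m hm ih =>
    rw [sum_Ico_succ_top hm]
    have ha : 0 ≤ Real.log (m : ℝ) := Real.log_natCast_nonneg m
    have hab : Real.log (m : ℝ) ≤ Real.log ((m + 1 : ℕ) : ℝ) :=
      Real.log_le_log (by exact_mod_cast hm) (by push_cast; linarith)
    have hb1 : Real.log ((m + 1 : ℕ) : ℝ) ≤ Real.log (m : ℝ) + 1 := log_step hm
    have hq := quart ha hab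
    have h3 : 0 ≤ Real.log ((m + 1 : ℕ) : ℝ) ^ 3 - Real.log (m : ℝ) ^ 3 := by
      have := pow_le_pow_left₀ ha hab 3
      linarith
    have h4 := mul_nonneg h3 (by linarith :
      0 ≤ Real.log (m : ℝ) + 1 - Real.log ((m + 1 : ℕ) : ℝ))
    nlinarith

lemma sum_cube : ∃ C : ℝ, 0 ≤ C ∧ ∀ z : ℕ, 1 ≤ z →
    ∑ p ∈ PP z, Real.log p ^ 3 * (Real.log p / p) ≤
      Real.log z ^ 4 / 4 + C * Real.log z ^ 3 := by
  obtain ⟨C, hC0, hC⟩ := mert_diff
  refine ⟨C + 1, by linarith, fun z hz => ?_⟩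
  have hΔ : ∀ n ∈ Ico 1 z, 0 ≤ Real.log ((n + 1 : ℕ) : ℝ) ^ 3 - Real.log (n : ℝ) ^ 3 := by
    intro n hn
    rw [mem_Ico] at hn
    have h1 : Real.log (n : ℝ) ≤ Real.log ((n + 1 : ℕ) : ℝ) :=
      Real.log_le_log (by exact_mod_cast hn.1) (by push_cast; linarith)
    have := pow_le_pow_left₀ (Real.log_natCast_nonneg n) h1 3
    linarith
  have h1 : ∀ p ∈ PP z, Real.log (p : ℝ) ^ 3 * (Real.log p / p) =
      ∑ n ∈ Ico 1 z, if n < p then
        (Real.log ((n + 1 : ℕ) : ℝ) ^ 3 - Real.log (n : ℝ) ^ 3) * (Real.log p / p) else 0 := by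
    intro p hp
    rw [mem_PP] at hp
    have h2 : (Ico 1 z).filter (fun n => n < p) = Ico 1 p := by
      ext n
      rw [mem_filter, mem_Ico, mem_Ico]
      omega
    rw [← sum_filter, h2, ← sum_mul,
      sum_Ico_sub (fun n : ℕ => Real.log (n : ℝ) ^ 3) hp.2.1.one_lt.le]
    simp
  have h2 : ∑ p ∈ PP z, Real.log p ^ 3 * (Real.log p / p) =
      ∑ n ∈ Ico 1 z, (Real.log ((n + 1 : ℕ) : ℝ) ^ 3 - Real.log (n : ℝ) ^ 3) *
        ∑ p ∈ (PP z).filter (fun p => n < p), Real.log p / p := by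
    rw [sum_congr rfl h1, sum_comm]
    apply sum_congr rfl
    intro n _
    rw [mul_sum, sum_filter]
  have h3 : ∑ n ∈ Ico 1 z, (Real.log ((n + 1 : ℕ) : ℝ) ^ 3 - Real.log (n : ℝ) ^ 3) *
        ∑ p ∈ (PP z).filter (fun p => n < p), Real.log p / p ≤
      ∑ n ∈ Ico 1 z, (Real.log ((n + 1 : ℕ) : ℝ) ^ 3 - Real.log (n : ℝ) ^ 3) *
        (Real.log z + C - Real.log n) := by
    apply sum_le_sum
    intro n hn
    have h4 := hΔ n hn
    rw [mem_Ico] at hn
    apply mul_le_mul_of_nonneg_left _ h4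
    have := hC n z hn.1 hn.2.le
    linarith
  have h4 := tele z hz (Real.log z + C)
  rw [h2]
  nlinarith

/-! ### Numerics -/

lemma exp_125 : Real.exp (5 / 4) ≤ 34904 / 10000 := by
  have h1 : Real.exp (5 / 4) ^ 4 = Real.exp 1 ^ 5 := by
    rw [← Real.exp_nat_mul, ← Real.exp_nat_mul]
    norm_num
  have h2 : Real.exp 1 ^ 5 ≤ (2.7182818286 : ℝ) ^ 5 :=
    pow_le_pow_left₀ (Real.exp_pos _).le Real.exp_one_lt_d9.le 5
  have h3 : (2.7182818286 : ℝ) ^ 5 ≤ (34904 / 10000 : ℝ) ^ 4 := by norm_num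
  have h4 : Real.exp (5 / 4) ^ 4 ≤ (34904 / 10000 : ℝ) ^ 4 := by
    rw [h1]
    exact h2.trans h3
  exact (pow_le_pow_iff_left₀ (Real.exp_pos _).le (by norm_num) (by norm_num)).1 h4

lemma exp_187 : Real.exp (-(187 / 100)) ≤ 1542 / 10000 := by
  have h1 : Real.exp (187 / 100) ^ 100 = Real.exp 1 ^ 187 := by
    rw [← Real.exp_nat_mul, ← Real.exp_nat_mul]
    norm_num
  have h2 : (2.7182818283 : ℝ) ^ 187 ≤ Real.exp 1 ^ 187 :=
    pow_le_pow_left₀ (by norm_num) Real.exp_one_gt_d9.le 187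
  have h3 : (10000 / 1542 : ℝ) ^ 100 ≤ (2.7182818283 : ℝ) ^ 187 := by norm_num
  have h4 : (10000 / 1542 : ℝ) ^ 100 ≤ Real.exp (187 / 100) ^ 100 := by
    rw [h1]
    exact h3.trans h2
  have h5 : (10000 / 1542 : ℝ) ≤ Real.exp (187 / 100) :=
    (pow_le_pow_iff_left₀ (by norm_num) (Real.exp_pos _).le (by norm_num)).1 h4
  rw [Real.exp_neg, inv_le_comm₀ (Real.exp_pos _) (by norm_num)]
  norm_num at h5 ⊢
  exact h5

/-- the exponential of the Rankin exponent -/
lemma exp_bound8 {s ex : ℝ} (hs : 1 ≤ s) (h : ex ≤ -(187 / 100) - 5 * (s - 1)) :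
    Real.exp ex ≤ 1542 / 10000 / s ^ 5 := by
  have hs0 : 0 < s := by linarith
  have h1 : s ≤ Real.exp (s - 1) := by
    have := Real.add_one_le_exp (s - 1)
    linarith
  have h2 : s ^ 5 ≤ Real.exp (5 * (s - 1)) := by
    calc s ^ 5 ≤ Real.exp (s - 1) ^ 5 := pow_le_pow_left₀ hs0.le h1 5
      _ = Real.exp (5 * (s - 1)) := by
        rw [← Real.exp_nat_mul]
        norm_num
  have h3 : Real.exp (-(5 * (s - 1))) ≤ 1 / s ^ 5 := by
    rw [Real.exp_neg, ← one_div]
    exact one_div_le_one_div_of_le (by positivity) h2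
  calc Real.exp ex ≤ Real.exp (-(187 / 100) + -(5 * (s - 1))) := by
        apply Real.exp_le_exp.2
        linarith
    _ = Real.exp (-(187 / 100)) * Real.exp (-(5 * (s - 1))) := Real.exp_add _ _
    _ ≤ 1542 / 10000 * (1 / s ^ 5) :=
        mul_le_mul exp_187 h3 (Real.exp_pos _).le (by norm_num)
    _ = 1542 / 10000 / s ^ 5 := by ring

/-- the main analytic estimate, in terms of `z` only -/
lemma analytic_z8 (hR : RankinStmt) (hVl : VLimStmt) : ∃ z0 : ℕ, ∀ z : ℕ, z0 ≤ z → ∀ lam : ℝ,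
    8 * Real.log z - 8 / 1000 ≤ lam → ∀ ξ : ℕ → ℝ,
    (∀ p ∈ PP z, 1 ≤ ξ p ∧ Real.log (ξ p) = (lam - Real.log p) / 2) →
    ∑ p ∈ PP z, VZ p / p ≤ 1 →
    ∑ p ∈ PP z, 1 / (p : ℝ) * (1 / GZ (ξ p) p - VZ p) ≤ 5 / 100 * VZ z := by
  obtain ⟨C, hC0, hC⟩ := hR
  obtain ⟨C', hC'0, hM⟩ := sum_cube
  unfold VLimStmt at hVl
  set c : ℝ := 5 / 2 * Real.exp (-Real.eulerMascheroniConstant) with hc
  have hc0 : 0 < c := by positivity
  -- closeness to the limit
  have h1 : ∀ᶠ n : ℕ in atTop, |VZ n * Real.log n - c| ≤ 5 / 1000 * c := by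
    have h2 := (Metric.tendsto_nhds.1 hVl) (5 / 1000 * c) (by positivity)
    filter_upwards [h2] with n hn
    rw [Real.dist_eq] at hn
    exact hn.le
  have h2 : ∀ᶠ n : ℕ in atTop, 25 / 10 * C ≤ 5 / 1000 * Real.log n :=
    ((Real.tendsto_log_atTop.comp (tendsto_natCast_atTop_atTop (R := ℝ))).const_mul_atTop
      (by norm_num : (0 : ℝ) < 5 / 1000)).eventually_ge_atTop _
  obtain ⟨p1, hp1⟩ := eventually_atTop.1 (h1.and (h2.and (eventually_ge_atTop 3)))
  have hp13 : 3 ≤ p1 := (hp1 p1 le_rfl).2.2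
  have hp1R : (3 : ℝ) ≤ p1 := by exact_mod_cast hp13
  have hlog3 : (1 : ℝ) ≤ Real.log 3 := by
    rw [Real.le_log_iff_exp_le (by norm_num)]
    have := Real.exp_one_lt_d9
    linarith
  have hlp1 : 1 ≤ Real.log p1 := hlog3.trans (Real.log_le_log (by norm_num) hp1R)
  set κ : ℝ := 5 / Real.log p1 with hκ
  have hκ0 : 0 < κ := by positivity
  set K : ℝ := 31204 / 10000 + 24904 / 10000 * C with hK
  set η : ℝ := 4 / 10000 * c with hη
  have hη0 : 0 < η := by positivity
  obtain ⟨z1, hz1⟩ := eventually_atTop.1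
    ((Real.tendsto_log_atTop.comp (tendsto_natCast_atTop_atTop (R := ℝ))).eventually_ge_atTop
      (1 + 2 * Real.exp K / (κ ^ 2 * η) + 100 * C' + 2 * η))
  refine ⟨max z1 p1, fun z hz lam hlam ξ hξ htele => ?_⟩
  have hzp1 : p1 ≤ z := (le_max_right _ _).trans hz
  have hzR : (3 : ℝ) ≤ z := hp1R.trans (by exact_mod_cast hzp1)
  have hLz := hz1 z ((le_max_left _ _).trans hz)
  simp only [Function.comp] at hLz
  set Lz : ℝ := Real.log z with hLzd
  have hA0 : 0 ≤ 2 * Real.exp K / (κ ^ 2 * η) := by positivity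
  have hLz1 : 1 ≤ Lz := by linarith
  have hLz0 : 0 < Lz := by linarith
  have hLzK : 2 * Real.exp K / (κ ^ 2 * η) ≤ Lz := by linarith
  have hLzC : 100 * C' ≤ Lz := by linarith
  have hLzη : 2 * η ≤ Lz := by linarith
  have hVz := VZ_pos z
  have hVzc : 995 / 1000 * c ≤ VZ z * Lz := by
    have := (abs_le.1 (hp1 z hzp1).1).1
    linarith
  -- the bound for each prime
  have key : ∀ p ∈ PP z, 1 / (p : ℝ) * (1 / GZ (ξ p) p - VZ p) ≤
      1842 / 10000 * VZ z / Lz ^ 4 * (Real.log p ^ 3 * (Real.log p / p)) +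
        2 * η / Lz * (VZ p / p) := by
    intro p hp
    obtain ⟨hξ1, hξ2⟩ := hξ p hp
    rw [mem_PP] at hp
    have hp2 : p ≠ 2 := by
      rintro rfl
      exact hp.2.2 (by norm_num)
    have hp3 : 3 ≤ p := by
      have := hp.2.1.two_le
      omega
    have hpR : (3 : ℝ) ≤ p := by exact_mod_cast hp3
    have hp0 : (0 : ℝ) < p := by linarith
    set x : ℝ := Real.log p with hx
    have hx1 : 1 ≤ x := hlog3.trans (Real.log_le_log (by norm_num) hpR)
    have hx0 : 0 < x := by linarith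
    have hxLz : x ≤ Lz := Real.log_le_log hp0 (by exact_mod_cast hp.1.le)
    have hVp := VZ_pos p
    have hrank := hC p (by omega) (ξ p) (5 / 4) hξ1 (by norm_num)
    rw [hξ2, ← hx] at hrank
    set ex : ℝ := -(5 / 4) * ((lam - x) / 2 / x) + (Real.exp (5 / 4) - 1) * (1 + C / x) with hex
    set s : ℝ := Lz / x with hs
    have hs1 : 1 ≤ s := by
      rw [hs, le_div_iff₀ hx0]
      linarith
    have hw : 4 * s - 504 / 1000 ≤ (lam - x) / 2 / x := by
      rw [hs, le_div_iff₀ hx0]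
      have h3 : (4 * (Lz / x) - 504 / 1000) * x = 4 * Lz - 504 / 1000 * x := by
        field_simp
      rw [h3]
      nlinarith
    have hCx : 0 ≤ C / x := by positivity
    have hex1 : ex ≤ -5 * s + 63 / 100 + 24904 / 10000 * (1 + C / x) := by
      have h3 := exp_125
      have h4 : (Real.exp (5 / 4) - 1) * (1 + C / x) ≤ 24904 / 10000 * (1 + C / x) := by
        apply mul_le_mul_of_nonneg_right _ (by linarith)
        linarith
      rw [hex]
      linarith
    rcases lt_or_ge p p1 with hlt | hge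
    · -- small primes
      have hxp1 : x ≤ Real.log p1 := Real.log_le_log hp0 (by exact_mod_cast hlt.le)
      have h3 : κ * Lz ≤ 5 * s := by
        rw [hκ, hs, div_mul_eq_mul_div, mul_div_assoc]
        apply mul_le_mul_of_nonneg_left _ (by norm_num)
        exact div_le_div_of_nonneg_left hLz0.le hx0 hxp1
      have h4 : C / x ≤ C := div_le_self hC0 hx1
      have h5 : ex ≤ K - κ * Lz := by
        rw [hK]
        linarith
      have h6 : Real.exp ex ≤ η / Lz := by
        have h7 : (κ * Lz) ^ 2 / 2 ≤ Real.exp (κ * Lz) := by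
          have := Real.quadratic_le_exp_of_nonneg (x := κ * Lz) (by positivity)
          have h8 : 0 ≤ κ * Lz := by positivity
          linarith
        have h8 : Real.exp (-(κ * Lz)) ≤ 2 / (κ * Lz) ^ 2 := by
          rw [Real.exp_neg, inv_le_comm₀ (Real.exp_pos _) (by positivity), inv_div]
          exact h7
        calc Real.exp ex ≤ Real.exp (K + -(κ * Lz)) := by
              apply Real.exp_le_exp.2
              linarith
          _ = Real.exp K * Real.exp (-(κ * Lz)) := Real.exp_add _ _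
          _ ≤ Real.exp K * (2 / (κ * Lz) ^ 2) := by gcongr
          _ = (2 * Real.exp K / (κ ^ 2 * η)) * (η / Lz ^ 2) := by
              field_simp
          _ ≤ Lz * (η / Lz ^ 2) := by gcongr
          _ = η / Lz := by
              field_simp
      have h7 : η / Lz ≤ 1 / 2 := by
        rw [div_le_iff₀ hLz0]
        linarith
      have h8 := inv_GZ hVp (Real.exp_pos ex).le (by linarith) hrank
      have h9 : Real.exp ex / (1 - Real.exp ex) ≤ 2 * η / Lz := by
        rw [div_le_iff₀ (by linarith)]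
        have h10 : 2 * η / Lz = 2 * (η / Lz) := by ring
        rw [h10]
        nlinarith [Real.exp_pos ex]
      have h10 : 1 / GZ (ξ p) p - VZ p ≤ VZ p * (2 * η / Lz) :=
        h8.trans (mul_le_mul_of_nonneg_left h9 hVp.le)
      calc 1 / (p : ℝ) * (1 / GZ (ξ p) p - VZ p) ≤ 1 / (p : ℝ) * (VZ p * (2 * η / Lz)) := by gcongr
        _ = 0 + 2 * η / Lz * (VZ p / p) := by ring
        _ ≤ 1842 / 10000 * VZ z / Lz ^ 4 * (x ^ 3 * (x / p)) + 2 * η / Lz * (VZ p / p) := by
            gcongr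
            positivity
    · -- large primes
      have h3 : 25 / 10 * C ≤ 5 / 1000 * x := (hp1 p hge).2.1
      have h4 : 24904 / 10000 * (C / x) ≤ 5 / 1000 := by
        have h5 : 25 / 10 * (C / x) ≤ 5 / 1000 := by
          rw [← mul_div_assoc, div_le_iff₀ hx0]
          exact h3
        nlinarith
      have h5 : ex ≤ -(187 / 100) - 5 * (s - 1) := by linarith
      have h6 := exp_bound8 hs1 h5
      have hs0 : 0 < s := by linarith
      have hs2 : 1 ≤ s ^ 5 := one_le_pow₀ hs1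
      have h7 : Real.exp ex ≤ 1542 / 10000 := by
        refine h6.trans ?_
        exact div_le_self (by norm_num) hs2
      have h8 := inv_GZ hVp (Real.exp_pos ex).le (by linarith) hrank
      have h9 : Real.exp ex / (1 - Real.exp ex) ≤ 1542 / 8458 / s ^ 5 := by
        rw [div_le_div_iff₀ (by linarith) (by positivity)]
        rw [le_div_iff₀ (by positivity)] at h6
        have h10 : 0 ≤ Real.exp ex := (Real.exp_pos ex).le
        nlinarith
      have h10 : VZ p ≤ 1005 / 995 * VZ z * s := by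
        have h11 := (abs_le.1 (hp1 p hge).1).2
        have h12 : VZ p * x ≤ 1005 / 1000 * c := by linarith
        have h13 : VZ p * x ≤ (1005 / 995 * VZ z * s) * x := by
          have h14 : (1005 / 995 * VZ z * s) * x = 1005 / 995 * (VZ z * Lz) := by
            rw [hs]
            field_simp
          rw [h14]
          linarith
        exact le_of_mul_le_mul_right h13 hx0
      have h11 : 1 / GZ (ξ p) p - VZ p ≤ 1842 / 10000 * VZ z / s ^ 4 := by
        calc 1 / GZ (ξ p) p - VZ p ≤ VZ p * (Real.exp ex / (1 - Real.exp ex)) := h8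
          _ ≤ (1005 / 995 * VZ z * s) * (1542 / 8458 / s ^ 5) := by
              apply mul_le_mul h10 h9 _ (by positivity)
              apply div_nonneg (Real.exp_pos ex).le (by linarith)
          _ = (1005 / 995 * (1542 / 8458)) * (VZ z / s ^ 4) := by
              field_simp
          _ ≤ 1842 / 10000 * (VZ z / s ^ 4) := by
              gcongr
              norm_num
          _ = 1842 / 10000 * VZ z / s ^ 4 := by ring
      calc 1 / (p : ℝ) * (1 / GZ (ξ p) p - VZ p)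
          ≤ 1 / (p : ℝ) * (1842 / 10000 * VZ z / s ^ 4) := by
            gcongr
        _ = 1842 / 10000 * VZ z / Lz ^ 4 * (x ^ 3 * (x / p)) + 0 := by
            rw [hs]
            field_simp
            ring
        _ ≤ 1842 / 10000 * VZ z / Lz ^ 4 * (x ^ 3 * (x / p)) + 2 * η / Lz * (VZ p / p) := by
            gcongr
            positivity
  calc ∑ p ∈ PP z, 1 / (p : ℝ) * (1 / GZ (ξ p) p - VZ p)
      ≤ ∑ p ∈ PP z, (1842 / 10000 * VZ z / Lz ^ 4 * (Real.log p ^ 3 * (Real.log p / p)) +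
          2 * η / Lz * (VZ p / p)) :=
        sum_le_sum key
    _ = 1842 / 10000 * VZ z / Lz ^ 4 * ∑ p ∈ PP z, Real.log p ^ 3 * (Real.log p / p) +
        2 * η / Lz * ∑ p ∈ PP z, VZ p / p := by
        rw [sum_add_distrib, ← mul_sum, ← mul_sum]
    _ ≤ 1842 / 10000 * VZ z / Lz ^ 4 * (26 / 100 * Lz ^ 4) + 2 * η / Lz * 1 := by
        have h3 := hM z (by
          have : (1 : ℝ) ≤ z := by linarith
          exact_mod_cast this)
        have h4 : C' * Lz ^ 3 ≤ 1 / 100 * Lz ^ 4 := by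
          have h5 : 0 < Lz ^ 3 := by positivity
          have h6 : Lz ^ 4 = Lz * Lz ^ 3 := by ring
          rw [h6]
          nlinarith
        gcongr
        linarith
    _ ≤ 5 / 100 * VZ z := by
        have h3 : 1842 / 10000 * VZ z / Lz ^ 4 * (26 / 100 * Lz ^ 4) =
            1842 / 10000 * (26 / 100) * VZ z := by
          field_simp
        have h4 : 2 * η / Lz * 1 ≤ 81 / 100000 * VZ z := by
          rw [mul_one, div_le_iff₀ hLz0, hη]
          nlinarith
        rw [h3]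
        linarith

/-- the lower bound sieve -/
theorem lower_of8 (hS : SelbergStmt) (hR : RankinStmt) (hVl : VLimStmt) :
    ∃ D₀ : ℝ, ∀ D : ℝ, D₀ ≤ D → ∀ (ι : Type) (S : Finset ι) (v : ι → ℕ) (X : ℝ), 0 ≤ X →
    95 / 100 * X * VZ ⌈D ^ (1 / 8 : ℝ)⌉₊ - Rem S v X D ≤ sift S v 1 ⌈D ^ (1 / 8 : ℝ)⌉₊ := by
  obtain ⟨z0, hz0⟩ := analytic_z8 hR hVl
  refine ⟨max ((z0 : ℝ) ^ 8) (1000 ^ 8), fun D hD ι S v X hX => ?_⟩
  have hD1 : (z0 : ℝ) ^ 8 ≤ D := (le_max_left _ _).trans hD
  have hD2 : (1000 : ℝ) ^ 8 ≤ D := (le_max_right _ _).trans hD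
  have hD3 : 1 ≤ D := le_trans (by norm_num) hD2
  have hD0 : 0 < D := by linarith
  set u : ℝ := D ^ (1 / 8 : ℝ) with hu
  have hu8 : u ^ 8 = D := by
    rw [hu, ← Real.rpow_natCast, ← Real.rpow_mul hD0.le]
    norm_num
  have hu0 : 0 < u := Real.rpow_pos_of_pos hD0 _
  have hu1000 : 1000 ≤ u := by
    rw [← hu8] at hD2
    exact (pow_le_pow_iff_left₀ (by norm_num) hu0.le (by norm_num)).1 hD2
  have huz0 : (z0 : ℝ) ≤ u := by
    rw [← hu8] at hD1
    exact (pow_le_pow_iff_left₀ (Nat.cast_nonneg _) hu0.le (by norm_num)).1 hD1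
  have hlogu : Real.log D = 8 * Real.log u := by
    rw [← hu8, Real.log_pow]
    norm_num
  have huD : u ≤ D := by
    rw [← hu8]
    exact le_self_pow₀ (by linarith) (by norm_num)
  set z : ℕ := ⌈u⌉₊ with hz
  have hzz0 : z0 ≤ z := by
    have : (z0 : ℝ) ≤ z := huz0.trans (Nat.le_ceil u)
    exact_mod_cast this
  have hzu : (z : ℝ) ≤ u + 1 := (Nat.ceil_lt_add_one hu0.le).le
  have hz1 : (1000 : ℝ) ≤ z := hu1000.trans (Nat.le_ceil u)
  have hlogz : Real.log z ≤ Real.log u + 1 / 1000 := by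
    have h1 : Real.log z ≤ Real.log (u * (1 + 1 / u)) := by
      apply Real.log_le_log (by linarith)
      have : u * (1 + 1 / u) = u + 1 := by field_simp
      rw [this]
      exact hzu
    rw [Real.log_mul hu0.ne' (by positivity)] at h1
    have h2 : Real.log (1 + 1 / u) ≤ 1 / u := by
      have := Real.log_le_sub_one_of_pos (x := 1 + 1 / u) (by positivity)
      linarith
    have h3 : 1 / u ≤ 1 / 1000 := one_div_le_one_div_of_le (by norm_num) hu1000
    linarith
  have hpu : ∀ p ∈ PP z, (p : ℝ) < u := by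
    intro p hp
    rw [mem_PP] at hp
    exact Nat.lt_ceil.1 hp.1
  have hξ : ∀ p ∈ PP z, 1 ≤ √(D / p) ∧ Real.log (√(D / p)) = (Real.log D - Real.log p) / 2 := by
    intro p hp
    have h1 := hpu p hp
    rw [mem_PP] at hp
    have hp0 : (0 : ℝ) < p := by exact_mod_cast hp.2.1.pos
    constructor
    · rw [Real.one_le_sqrt, one_le_div hp0]
      linarith
    · rw [Real.log_sqrt (by positivity), Real.log_div hD0.ne' hp0.ne']
  have hVz := VZ_pos z
  have han := hz0 z hzz0 (Real.log D) (by rw [hlogu]; linarith) (fun p => √(D / p)) hξ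
    (by rw [VZ_tele]; linarith)
  -- Selberg for each prime
  have hsel : ∑ p ∈ PP z, sift S v p p ≤ X * ∑ p ∈ PP z, 1 / (p : ℝ) * (1 / GZ (√(D / p)) p) +
      ∑ p ∈ PP z, ∑ l ∈ (PZ p).divisors.filter (fun l : ℕ => (l : ℝ) ≤ D / p),
      (l.divisors.card : ℝ) ^ 2 * |rem S v X (p * l)| := by
    rw [mul_sum, ← sum_add_distrib]
    apply sum_le_sum
    intro p hp
    have h1 := hξ p hp
    rw [mem_PP] at hp
    have h2 := hS S v X hX p p (coprime_PZ hp.2.1) hp.2.1.pos (√(D / p)) h1.1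
    rw [Real.sq_sqrt (by positivity)] at h2
    have h3 : X / p / GZ (√(D / p)) p = X * (1 / (p : ℝ) * (1 / GZ (√(D / p)) p)) := by
      ring
    rw [h3] at h2
    exact h2
  have hrem := rem_total S v X D hD3 z
  have hmain : 95 / 100 * VZ z ≤ 1 - ∑ p ∈ PP z, 1 / (p : ℝ) * (1 / GZ (√(D / p)) p) := by
    have h1 : ∑ p ∈ PP z, 1 / (p : ℝ) * (1 / GZ (√(D / p)) p - VZ p) =
        ∑ p ∈ PP z, 1 / (p : ℝ) * (1 / GZ (√(D / p)) p) - ∑ p ∈ PP z, VZ p / p := by
      rw [← sum_sub_distrib]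
      apply sum_congr rfl
      intro p _
      ring
    rw [h1, VZ_tele] at han
    linarith
  have hb := buchstab S v z
  have hcard := rem_one S v X
  have habs := neg_abs_le (rem S v X 1)
  have hX2 : 95 / 100 * X * VZ z ≤
      X - X * ∑ p ∈ PP z, 1 / (p : ℝ) * (1 / GZ (√(D / p)) p) := by
    have := mul_le_mul_of_nonneg_left hmain hX
    linarith
  linarith

/-- Q9: lower bound sieve at `D^(1/8)` -/
theorem lower2 : ∃ D₀ : ℝ, ∀ D : ℝ, D₀ ≤ D → ∀ (ι : Type) (S : Finset ι) (v : ι → ℕ) (X : ℝ), 0 ≤ X →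
    95 / 100 * X * VZ ⌈D ^ (1 / 8 : ℝ)⌉₊ - Rem S v X D ≤ sift S v 1 ⌈D ^ (1 / 8 : ℝ)⌉₊ :=
  lower_of8 (fun S v X hX z d hd hd0 ξ hξ =>
      Pool.Agent.H605R2.PalS1.selberg S v X hX z d hd hd0 ξ hξ)
    Pool.Agent.H187R2.PalS2.rankin Pool.Agent.H503R2.PalS4.V_lim

end Pool.Agent.H472R2.PalQ9
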