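import Pool.Agent.H472R2.Final

/-! The near-one theorem for positive rational numbers. -/

set_option autoImplicit false
set_option maxHeartbeats 1000000

noncomputable section

namespace Pool.Agent.H472R2

lemma Lam_real (a : ℝ) (ha : 0 < a) : Lam (((a - 1)/(a + 1) : ℝ) : ℂ) = (Real.log a : ℂ) := by
  unfold Lam
  have h1 : (1 : ℂ) + (((a - 1)/(a + 1) : ℝ) : ℂ) = ((2*a/(a+1) : ℝ) : ℂ) := by
    push_cast
    have : (a : ℂ) + 1 ≠ 0 := by
      have : a + 1 ≠ 0 := by positivity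
      exact_mod_cast this
    field_simp
    ring
  have h2 : (1 : ℂ) - (((a - 1)/(a + 1) : ℝ) : ℂ) = ((2/(a+1) : ℝ) : ℂ) := by
    push_cast
    have : (a : ℂ) + 1 ≠ 0 := by
      have : a + 1 ≠ 0 := by positivity
      exact_mod_cast this
    field_simp
    ring
  rw [h1, h2, ← Complex.ofReal_log (by positivity), ← Complex.ofReal_log (by positivity),
    ← Complex.ofReal_sub]
  congr 1
  rw [← Real.log_div (by positivity) (by positivity)]
  congr 1
  field_simp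

/-- the ring of integers inside `ℂ` -/
def ZC : Subring ℂ := (Int.castRingHom ℂ).range

lemma ZC_discr : ∀ x ∈ ZC, x ≠ 0 → 1 ≤ ‖x‖ := by
  rintro _ ⟨k, rfl⟩ h
  have hk : k ≠ 0 := by
    rintro rfl
    simp at h
  simp only [eq_intCast, Complex.norm_intCast]
  exact_mod_cast Int.one_le_abs hk

/-- the rational form of the near-one theorem -/
theorem near_one_rat : ∃ D : ℕ, ∀ (B H : ℕ) (p q : Fin 4 → ℕ), 2 ≤ B → B ^ D ≤ H →
    (∀ j, 0 < p j ∧ p j ≠ q j ∧ |(p j : ℤ) - q j| ≤ B ∧ H ≤ q j ∧ q j ≤ B * H) →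
    Real.log ((p 0 : ℝ)/q 0) * Real.log ((p 3 : ℝ)/q 3)
      = Real.log ((p 1 : ℝ)/q 1) * Real.log ((p 2 : ℝ)/q 2) →
    (((p 0 : ℝ) - q 0)/(p 0 + q 0)) * (((p 3 : ℝ) - q 3)/(p 3 + q 3))
      = (((p 1 : ℝ) - q 1)/(p 1 + q 1)) * (((p 2 : ℝ) - q 2)/(p 2 + q 2)) ∧
    (((p 0 : ℝ) - q 0)/(p 0 + q 0))^2 + (((p 3 : ℝ) - q 3)/(p 3 + q 3))^2
      = (((p 1 : ℝ) - q 1)/(p 1 + q 1))^2 + (((p 2 : ℝ) - q 2)/(p 2 + q 2))^2 := by
  obtain ⟨D, hD⟩ := near_one
  refine ⟨3 * D + 1, fun B H p q hB hH hpq hrel => ?_⟩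
  have hBR : (2:ℝ) ≤ B := by exact_mod_cast hB
  have hH' : ((B:ℝ))^(3*D+1) ≤ H := by exact_mod_cast hH
  have hH1 : (1:ℝ) ≤ (B:ℝ)^(3*D) := one_le_pow₀ (by linarith)
  have hBH : (B:ℝ) ≤ H := by
    have : (B:ℝ)^(3*D+1) = (B:ℝ)^(3*D) * B := pow_succ _ _
    nlinarith
  have hH0 : (0:ℝ) < H := by linarith
  have hMD : (3 * (B:ℝ))^D ≤ H := by
    have h1 : 3 * (B:ℝ) ≤ (B:ℝ)^3 := by nlinarith [sq_nonneg ((B:ℝ))]
    have h2 : (3 * (B:ℝ))^D ≤ ((B:ℝ)^3)^D := pow_le_pow_left₀ (by linarith) h1 D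
    rw [← pow_mul] at h2
    have h3 : (B:ℝ)^(3*D) ≤ (B:ℝ)^(3*D+1) := pow_le_pow_right₀ (by linarith) (by omega)
    linarith
  set m : Fin 4 → ℂ := fun j => ((((p j : ℤ) - q j : ℤ)) : ℂ) with hm
  set n : Fin 4 → ℂ := fun j => ((((p j : ℤ) + q j : ℤ)) : ℂ) with hn
  have habs : ∀ j, |(p j : ℝ) - q j| ≤ B := fun j => by
    have := (hpq j).2.2.1
    exact_mod_cast this
  have hHq : ∀ j, (H:ℝ) ≤ q j := fun j => by exact_mod_cast (hpq j).2.2.2.1
  have hqH : ∀ j, (q j : ℝ) ≤ B * H := fun j => by exact_mod_cast (hpq j).2.2.2.2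
  have hT : Tup ZC (3 * B) H m n := by
    refine ⟨ZC_discr, fun j => ⟨_, rfl⟩, fun j => ⟨_, rfl⟩, fun j => ?_, fun j => ?_, fun j => ?_,
      fun j => ?_⟩
    · have := (hpq j).2.1
      simp only [hm]
      rw [Int.cast_ne_zero]
      omega
    · simp only [hm]
      rw [Complex.norm_intCast]
      have := habs j
      push_cast
      linarith
    · simp only [hn]
      rw [Complex.norm_intCast]
      push_cast
      rw [abs_of_nonneg (by positivity)]
      have := hHq j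
      have : (0:ℝ) ≤ p j := by positivity
      linarith
    · simp only [hn]
      rw [Complex.norm_intCast]
      push_cast
      rw [abs_of_nonneg (by positivity)]
      have h1 := (abs_le.mp (habs j)).2
      have h2 := hHq j
      have h3 := hqH j
      nlinarith
  have hLam : ∀ j, Lam (m j / n j) = (Real.log ((p j : ℝ)/q j) : ℂ) := fun j => by
    have hq : (0:ℝ) < q j := lt_of_lt_of_le hH0 (hHq j)
    have hp : (0:ℝ) < p j := by exact_mod_cast (hpq j).1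
    rw [← Lam_real _ (div_pos hp hq)]
    congr 1
    have : (((p j : ℝ)/q j - 1)/((p j : ℝ)/q j + 1)) = ((p j : ℝ) - q j)/(p j + q j) := by
      field_simp
    rw [this]
    simp only [hm, hn]
    push_cast
    rfl
  have hval : ∀ j, m j / n j = ((((p j : ℝ) - q j)/(p j + q j) : ℝ) : ℂ) := fun j => by
    simp only [hm, hn]
    push_cast
    rfl
  have h := hD ZC (3 * B) H m n (by linarith) hMD hT (by
    rw [hLam, hLam, hLam, hLam]
    exact_mod_cast hrel)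
  rw [hval, hval, hval, hval] at h
  exact_mod_cast h

end Pool.Agent.H472R2
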