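import Pool.Agent.H472R2.Ana

/-! Slowly growing sequences and the calculus of small fractions. -/

set_option autoImplicit false
set_option maxHeartbeats 4000000
set_option linter.unusedSimpArgs false

noncomputable section

open Filter

namespace Pool.Agent.H472R2

/-- the ring of sequences bounded eventually by a power of `M` -/
def Slow (M : ℕ → ℝ) (hM : ∀ i, 2 ≤ M i) : Subring (ℕ → ℂ) where
  carrier := {f | ∃ A : ℕ, ∀ᶠ i in atTop, ‖f i‖ ≤ M i ^ A}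
  mul_mem' := by
    rintro f g ⟨A, hA⟩ ⟨B, hB⟩
    refine ⟨A + B, ?_⟩
    filter_upwards [hA, hB] with i h1 h2
    rw [Pi.mul_apply, norm_mul, pow_add]
    have := hM i
    exact mul_le_mul h1 h2 (norm_nonneg _) (by positivity)
  one_mem' := ⟨0, by simp⟩
  add_mem' := by
    rintro f g ⟨A, hA⟩ ⟨B, hB⟩
    refine ⟨A + B + 1, ?_⟩
    filter_upwards [hA, hB] with i h1 h2
    rw [Pi.add_apply]
    have h := hM i
    have hA' : M i ^ A ≤ M i ^ (A + B) := pow_le_pow_right₀ (by linarith) (by omega)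
    have hB' : M i ^ B ≤ M i ^ (A + B) := pow_le_pow_right₀ (by linarith) (by omega)
    have h3 : 0 ≤ M i ^ (A+B) := by positivity
    calc ‖f i + g i‖ ≤ ‖f i‖ + ‖g i‖ := norm_add_le _ _
      _ ≤ M i ^ (A+B) * 2 := by linarith
      _ ≤ M i ^ (A+B) * M i := mul_le_mul_of_nonneg_left h h3
      _ = M i ^ (A + B + 1) := by rw [pow_succ]
  zero_mem' := ⟨0, by simp⟩
  neg_mem' := by
    rintro f ⟨A, hA⟩
    exact ⟨A, by simpa using hA⟩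

variable {M : ℕ → ℝ} {hM : ∀ i, 2 ≤ M i}

lemma mem_slow {f : ℕ → ℂ} : f ∈ Slow M hM ↔ ∃ A : ℕ, ∀ᶠ i in atTop, ‖f i‖ ≤ M i ^ A := Iff.rfl

lemma slow_congr {f g : ℕ → ℂ} (hf : f ∈ Slow M hM) (h : ∀ᶠ i in atTop, g i = f i) :
    g ∈ Slow M hM := by
  obtain ⟨A, hA⟩ := hf
  refine ⟨A, ?_⟩
  filter_upwards [hA, h] with i h1 h2
  rw [h2]; exact h1

lemma slow_of_le {f g : ℕ → ℂ} (hf : f ∈ Slow M hM) (h : ∀ᶠ i in atTop, ‖g i‖ ≤ ‖f i‖) :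
    g ∈ Slow M hM := by
  obtain ⟨A, hA⟩ := hf
  refine ⟨A, ?_⟩
  filter_upwards [hA, h] with i h1 h2
  exact h2.trans h1

lemma slow_const (c : ℂ) : (fun _ => c) ∈ Slow M hM := by
  obtain ⟨A, hA⟩ := pow_unbounded_of_one_lt ‖c‖ (by norm_num : (1:ℝ) < 2)
  refine ⟨A, Eventually.of_forall fun i => ?_⟩
  exact hA.le.trans (pow_le_pow_left₀ (by norm_num) (hM i) A)

lemma slow_add {f g : ℕ → ℂ} (hf : f ∈ Slow M hM) (hg : g ∈ Slow M hM) :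
    (fun i => f i + g i) ∈ Slow M hM := (Slow M hM).add_mem hf hg

lemma slow_sub {f g : ℕ → ℂ} (hf : f ∈ Slow M hM) (hg : g ∈ Slow M hM) :
    (fun i => f i - g i) ∈ Slow M hM := (Slow M hM).sub_mem hf hg

lemma slow_mul {f g : ℕ → ℂ} (hf : f ∈ Slow M hM) (hg : g ∈ Slow M hM) :
    (fun i => f i * g i) ∈ Slow M hM := (Slow M hM).mul_mem hf hg

lemma slow_pow {f : ℕ → ℂ} (hf : f ∈ Slow M hM) (n : ℕ) :
    (fun i => f i ^ n) ∈ Slow M hM := (Slow M hM).pow_mem hf n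

lemma slow_neg {f : ℕ → ℂ} (hf : f ∈ Slow M hM) :
    (fun i => - f i) ∈ Slow M hM := (Slow M hM).neg_mem hf

lemma slow_div_const {f : ℕ → ℂ} (hf : f ∈ Slow M hM) (c : ℂ) :
    (fun i => f i / c) ∈ Slow M hM := by
  simpa [div_eq_mul_inv] using slow_mul hf (slow_const c⁻¹)

/-- very small sequences -/
def Tiny (M : ℕ → ℝ) (f : ℕ → ℂ) : Prop := ∀ A : ℕ, ∀ᶠ i in atTop, M i ^ A * ‖f i‖ < 1

lemma Tiny.slow {f : ℕ → ℂ} (h : Tiny M f) : f ∈ Slow M hM := by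
  refine ⟨0, ?_⟩
  filter_upwards [h 0] with i hi
  simp at hi ⊢
  exact hi.le

lemma Tiny.mul_slow {f g : ℕ → ℂ} (h : Tiny M f) (hg : g ∈ Slow M hM) :
    Tiny M (fun i => f i * g i) := by
  intro A
  obtain ⟨B, hB⟩ := hg
  filter_upwards [h (A + B), hB] with i h1 h2
  have h0 := hM i
  rw [norm_mul]
  calc M i ^ A * (‖f i‖ * ‖g i‖) ≤ M i ^ A * (‖f i‖ * M i ^ B) := by gcongr
    _ = M i ^ (A + B) * ‖f i‖ := by rw [pow_add]; ring
    _ < 1 := h1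

/-- a tiny sequence is eventually smaller than any constant -/
lemma Tiny.lt {f : ℕ → ℂ} (h : Tiny M f) (hM : ∀ i, 2 ≤ M i) {c : ℝ} (hc : 0 < c) :
    ∀ᶠ i in atTop, ‖f i‖ < c := by
  obtain ⟨A, hA⟩ := pow_unbounded_of_one_lt c⁻¹ (by norm_num : (1:ℝ) < 2)
  filter_upwards [h A] with i hi
  have h2 : c⁻¹ < M i ^ A := hA.trans_le (pow_le_pow_left₀ (by norm_num) (hM i) A)
  by_contra hcon
  push Not at hcon
  have h3 : (1:ℝ) ≤ M i ^ A * ‖f i‖ := by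
    have h4 : c⁻¹ * c ≤ M i ^ A * ‖f i‖ :=
      mul_le_mul h2.le hcon hc.le (by have := hM i; positivity)
    rwa [inv_mul_cancel₀ hc.ne'] at h4
  linarith

/-- fractions with slow denominators, with respect to a subring `O` of `ℂ` -/
def Kt (O : ℕ → Subring ℂ) (M : ℕ → ℝ) (hM : ∀ i, 2 ≤ M i) : Subring (ℕ → ℂ) where
  carrier := {f | ∃ q : ℕ → ℂ, (∀ i, q i ∈ O i ∧ q i ≠ 0) ∧ q ∈ Slow M hM ∧ ∀ i, f i * q i ∈ O i}
  mul_mem' := by
    rintro f g ⟨q, hq, hqs, hf⟩ ⟨r, hr, hrs, hg⟩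
    refine ⟨fun i => q i * r i, fun i => ⟨(O i).mul_mem (hq i).1 (hr i).1,
      mul_ne_zero (hq i).2 (hr i).2⟩, slow_mul hqs hrs, fun i => ?_⟩
    have := (O i).mul_mem (hf i) (hg i)
    rw [Pi.mul_apply]
    convert this using 1
    ring
  one_mem' := ⟨fun _ => 1, fun i => ⟨(O i).one_mem, one_ne_zero⟩, slow_const 1, fun i => by
    simp⟩
  add_mem' := by
    rintro f g ⟨q, hq, hqs, hf⟩ ⟨r, hr, hrs, hg⟩
    refine ⟨fun i => q i * r i, fun i => ⟨(O i).mul_mem (hq i).1 (hr i).1,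
      mul_ne_zero (hq i).2 (hr i).2⟩, slow_mul hqs hrs, fun i => ?_⟩
    have := (O i).add_mem ((O i).mul_mem (hf i) (hr i).1) ((O i).mul_mem (hg i) (hq i).1)
    rw [Pi.add_apply]
    convert this using 1
    ring
  zero_mem' := ⟨fun _ => 1, fun i => ⟨(O i).one_mem, one_ne_zero⟩, slow_const 1, fun i => by
    simp⟩
  neg_mem' := by
    rintro f ⟨q, hq, hqs, hf⟩
    refine ⟨q, hq, hqs, fun i => ?_⟩
    have := (O i).neg_mem (hf i)
    rw [Pi.neg_apply]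
    convert this using 1
    ring

variable {O : ℕ → Subring ℂ}

lemma kt_add {f g : ℕ → ℂ} (hf : f ∈ Kt O M hM) (hg : g ∈ Kt O M hM) :
    (fun i => f i + g i) ∈ Kt O M hM := (Kt O M hM).add_mem hf hg

lemma kt_sub {f g : ℕ → ℂ} (hf : f ∈ Kt O M hM) (hg : g ∈ Kt O M hM) :
    (fun i => f i - g i) ∈ Kt O M hM := (Kt O M hM).sub_mem hf hg

lemma kt_mul {f g : ℕ → ℂ} (hf : f ∈ Kt O M hM) (hg : g ∈ Kt O M hM) :
    (fun i => f i * g i) ∈ Kt O M hM := (Kt O M hM).mul_mem hf hg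

lemma kt_pow {f : ℕ → ℂ} (hf : f ∈ Kt O M hM) (n : ℕ) :
    (fun i => f i ^ n) ∈ Kt O M hM := (Kt O M hM).pow_mem hf n

lemma kt_neg {f : ℕ → ℂ} (hf : f ∈ Kt O M hM) :
    (fun i => - f i) ∈ Kt O M hM := (Kt O M hM).neg_mem hf

lemma kt_natCast (n : ℕ) : (fun _ => (n : ℂ)) ∈ Kt O M hM :=
  natCast_mem (Kt O M hM) n

lemma kt_div_nat {f : ℕ → ℂ} (hf : f ∈ Kt O M hM) (n : ℕ) (hn : n ≠ 0) :
    (fun i => f i / (n : ℂ)) ∈ Kt O M hM := by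
  obtain ⟨q, hq, hqs, hf⟩ := hf
  have hn' : (n : ℂ) ≠ 0 := by exact_mod_cast hn
  refine ⟨fun i => q i * n, fun i => ⟨(O i).mul_mem (hq i).1 (natCast_mem (O i) n),
    mul_ne_zero (hq i).2 hn'⟩, slow_mul hqs (slow_const _), fun i => ?_⟩
  have := hf i
  convert this using 1
  field_simp

/-- discreteness -/
lemma kt_eq_zero (hO : ∀ i, ∀ x ∈ O i, x ≠ 0 → 1 ≤ ‖x‖) {f e : ℕ → ℂ} (hf : f ∈ Kt O M hM)
    (he : Tiny M e) (he0 : ∀ i, e i ≠ 0) (hs : (fun i => f i / e i) ∈ Slow M hM) :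
    ∀ᶠ i in atTop, f i = 0 := by
  obtain ⟨q, hq, hqs, hf⟩ := hf
  have h1 : Tiny M (fun i => e i * (f i / e i * q i)) := he.mul_slow (slow_mul hs hqs)
  filter_upwards [h1 0] with i hi
  simp only [pow_zero, one_mul] at hi
  have h2 : e i * (f i / e i * q i) = f i * q i := by
    have := he0 i
    field_simp
  rw [h2] at hi
  by_contra hne
  have := hO i _ (hf i) (mul_ne_zero hne (hq i).2)
  linarith

/-- inverses -/
lemma slow_inv (hO : ∀ i, ∀ x ∈ O i, x ≠ 0 → 1 ≤ ‖x‖) {f : ℕ → ℂ} (hf : f ∈ Kt O M hM)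
    (hf0 : ∀ i, f i ≠ 0) : (fun i => (f i)⁻¹) ∈ Slow M hM := by
  obtain ⟨q, hq, hqs, hf⟩ := hf
  refine slow_of_le hqs (Eventually.of_forall fun i => ?_)
  have h1 := hO i _ (hf i) (mul_ne_zero (hf0 i) (hq i).2)
  rw [norm_mul] at h1
  rw [norm_inv]
  have h2 : 0 < ‖f i‖ := norm_pos_iff.mpr (hf0 i)
  rw [inv_le_iff_one_le_mul₀ h2]
  linarith [mul_comm ‖f i‖ ‖q i‖]

lemma kt_inv {f : ℕ → ℂ} (hf : f ∈ Kt O M hM) (hfs : f ∈ Slow M hM)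
    (hf0 : ∀ i, f i ≠ 0) : (fun i => (f i)⁻¹) ∈ Kt O M hM := by
  obtain ⟨q, hq, hqs, hf⟩ := hf
  refine ⟨fun i => f i * q i, fun i => ⟨hf i, mul_ne_zero (hf0 i) (hq i).2⟩,
    slow_mul hfs hqs, fun i => ?_⟩
  have := (hq i).1
  convert this using 1
  have := hf0 i
  field_simp

section closure

variable {k N0 N1 be ga e : ℕ → ℂ}

lemma P1_map {A B : Type*} [CommRing A] [CommRing B] (φ : A →+* B) (k N0 N1 be ga : A) :
    φ (P1 k N0 N1 be ga) = P1 (φ k) (φ N0) (φ N1) (φ be) (φ ga) := by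
  simp only [P1, P1_0, map_add, map_sub, map_mul, map_pow, map_ofNat, map_neg, map_one]

lemma P2_map {A B : Type*} [CommRing A] [CommRing B] (φ : A →+* B) (k N0 N1 be ga : A) :
    φ (P2 k N0 N1 be ga) = P2 (φ k) (φ N0) (φ N1) (φ be) (φ ga) := by
  simp only [P2, P2_0, map_add, map_sub, map_mul, map_pow, map_ofNat, map_neg, map_one]

lemma P3_map {A B : Type*} [CommRing A] [CommRing B] (φ : A →+* B) (k N0 N1 be ga : A) :
    φ (P3 k N0 N1 be ga) = P3 (φ k) (φ N0) (φ N1) (φ be) (φ ga) := by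
  simp only [P3, P3_0, map_add, map_sub, map_mul, map_pow, map_ofNat, map_neg, map_one]

lemma P4_map {A B : Type*} [CommRing A] [CommRing B] (φ : A →+* B) (k N0 N1 be ga : A) :
    φ (P4 k N0 N1 be ga) = P4 (φ k) (φ N0) (φ N1) (φ be) (φ ga) := by
  simp only [P4, P4_0, P4_1, map_add, map_sub, map_mul, map_pow, map_ofNat, map_neg, map_one]

lemma P5_map {A B : Type*} [CommRing A] [CommRing B] (φ : A →+* B) (k N0 N1 be ga : A) :
    φ (P5 k N0 N1 be ga) = P5 (φ k) (φ N0) (φ N1) (φ be) (φ ga) := by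
  simp only [P5, P5_0, P5_1, map_add, map_sub, map_mul, map_pow, map_ofNat, map_neg, map_one]

lemma P6_map {A B : Type*} [CommRing A] [CommRing B] (φ : A →+* B) (k N0 N1 be ga : A) :
    φ (P6 k N0 N1 be ga) = P6 (φ k) (φ N0) (φ N1) (φ be) (φ ga) := by
  simp only [P6, P6_0, P6_1, P6_2, map_add, map_sub, map_mul, map_pow, map_ofNat, map_neg, map_one]

lemma P7_map {A B : Type*} [CommRing A] [CommRing B] (φ : A →+* B) (k N0 N1 be ga : A) :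
    φ (P7 k N0 N1 be ga) = P7 (φ k) (φ N0) (φ N1) (φ be) (φ ga) := by
  simp only [P7, P7_0, P7_1, P7_2, map_add, map_sub, map_mul, map_pow, map_ofNat, map_neg, map_one]

lemma P8_map {A B : Type*} [CommRing A] [CommRing B] (φ : A →+* B) (k N0 N1 be ga : A) :
    φ (P8 k N0 N1 be ga) = P8 (φ k) (φ N0) (φ N1) (φ be) (φ ga) := by
  simp only [P8, P8_0, P8_1, P8_2, map_add, map_sub, map_mul, map_pow, map_ofNat, map_neg, map_one]

lemma P9_map {A B : Type*} [CommRing A] [CommRing B] (φ : A →+* B) (k N0 N1 be ga : A) :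
    φ (P9 k N0 N1 be ga) = P9 (φ k) (φ N0) (φ N1) (φ be) (φ ga) := by
  simp only [P9, P9_0, P9_1, P9_2, map_add, map_sub, map_mul, map_pow, map_ofNat, map_neg, map_one]

lemma P10_map {A B : Type*} [CommRing A] [CommRing B] (φ : A →+* B) (k N0 N1 be ga : A) :
    φ (P10 k N0 N1 be ga) = P10 (φ k) (φ N0) (φ N1) (φ be) (φ ga) := by
  simp only [P10, P10_0, P10_1, P10_2, map_add, map_sub, map_mul, map_pow, map_ofNat, map_neg, map_one]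

lemma P11_map {A B : Type*} [CommRing A] [CommRing B] (φ : A →+* B) (k N0 N1 be ga : A) :
    φ (P11 k N0 N1 be ga) = P11 (φ k) (φ N0) (φ N1) (φ be) (φ ga) := by
  simp only [P11, P11_0, P11_1, map_add, map_sub, map_mul, map_pow, map_ofNat, map_neg, map_one]

lemma P12_map {A B : Type*} [CommRing A] [CommRing B] (φ : A →+* B) (k N0 N1 be ga : A) :
    φ (P12 k N0 N1 be ga) = P12 (φ k) (φ N0) (φ N1) (φ be) (φ ga) := by
  simp only [P12, P12_0, P12_1, map_add, map_sub, map_mul, map_pow, map_ofNat, map_neg, map_one]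

lemma P13_map {A B : Type*} [CommRing A] [CommRing B] (φ : A →+* B) (k N0 N1 be ga : A) :
    φ (P13 k N0 N1 be ga) = P13 (φ k) (φ N0) (φ N1) (φ be) (φ ga) := by
  simp only [P13, P13_0, P13_1, map_add, map_sub, map_mul, map_pow, map_ofNat, map_neg, map_one]

lemma P14_map {A B : Type*} [CommRing A] [CommRing B] (φ : A →+* B) (k N0 N1 be ga : A) :
    φ (P14 k N0 N1 be ga) = P14 (φ k) (φ N0) (φ N1) (φ be) (φ ga) := by
  simp only [P14, P14_0, P14_1, map_add, map_sub, map_mul, map_pow, map_ofNat, map_neg, map_one]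

lemma P15_map {A B : Type*} [CommRing A] [CommRing B] (φ : A →+* B) (k N0 N1 be ga : A) :
    φ (P15 k N0 N1 be ga) = P15 (φ k) (φ N0) (φ N1) (φ be) (φ ga) := by
  simp only [P15, P15_0, P15_1, map_add, map_sub, map_mul, map_pow, map_ofNat, map_neg, map_one]

lemma P16_map {A B : Type*} [CommRing A] [CommRing B] (φ : A →+* B) (k N0 N1 be ga : A) :
    φ (P16 k N0 N1 be ga) = P16 (φ k) (φ N0) (φ N1) (φ be) (φ ga) := by
  simp only [P16, P16_0, map_add, map_sub, map_mul, map_pow, map_ofNat, map_neg, map_one]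

lemma P17_map {A B : Type*} [CommRing A] [CommRing B] (φ : A →+* B) (k N0 N1 be ga : A) :
    φ (P17 k N0 N1 be ga) = P17 (φ k) (φ N0) (φ N1) (φ be) (φ ga) := by
  simp only [P17, P17_0, map_add, map_sub, map_mul, map_pow, map_ofNat, map_neg, map_one]

lemma P18_map {A B : Type*} [CommRing A] [CommRing B] (φ : A →+* B) (k N0 N1 be ga : A) :
    φ (P18 k N0 N1 be ga) = P18 (φ k) (φ N0) (φ N1) (φ be) (φ ga) := by
  simp only [P18, P18_0, map_add, map_sub, map_mul, map_pow, map_ofNat, map_neg, map_one]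

lemma P19_map {A B : Type*} [CommRing A] [CommRing B] (φ : A →+* B) (k N0 N1 be ga : A) :
    φ (P19 k N0 N1 be ga) = P19 (φ k) (φ N0) (φ N1) (φ be) (φ ga) := by
  simp only [P19, P19_0, map_add, map_sub, map_mul, map_pow, map_ofNat, map_neg, map_one]

lemma P20_map {A B : Type*} [CommRing A] [CommRing B] (φ : A →+* B) (k N0 N1 be ga : A) :
    φ (P20 k N0 N1 be ga) = P20 (φ k) (φ N0) (φ N1) (φ be) (φ ga) := by
  simp only [P20, P20_0, map_add, map_sub, map_mul, map_pow, map_ofNat, map_neg, map_one]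

lemma P21_map {A B : Type*} [CommRing A] [CommRing B] (φ : A →+* B) (k N0 N1 be ga : A) :
    φ (P21 k N0 N1 be ga) = P21 (φ k) (φ N0) (φ N1) (φ be) (φ ga) := by
  simp only [P21, P21_0, map_add, map_sub, map_mul, map_pow, map_ofNat, map_neg, map_one]

lemma Rst_map {A B : Type*} [CommRing A] [CommRing B] (φ : A →+* B) (k N0 N1 be ga e : A) :
    φ (Rst k N0 N1 be ga e) = Rst (φ k) (φ N0) (φ N1) (φ be) (φ ga) (φ e) := by
  simp only [Rst, map_add, map_mul, map_pow, P6_map, P7_map, P8_map, P9_map, P10_map, P11_map, P12_map, P13_map, P14_map, P15_map, P16_map, P17_map, P18_map, P19_map, P20_map, P21_map]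

/-- evaluation homomorphism -/
def evS (S : Subring (ℕ → ℂ)) (i : ℕ) : S →+* ℂ := (Pi.evalRingHom (fun _ => ℂ) i).comp S.subtype

lemma P1_mem (S : Subring (ℕ → ℂ)) (hk : k ∈ S) (h0 : N0 ∈ S) (h1 : N1 ∈ S) (hb : be ∈ S)
    (hg : ga ∈ S) : (fun i => P1 (k i) (N0 i) (N1 i) (be i) (ga i)) ∈ S := by
  have h := (P1 (⟨k, hk⟩ : S) ⟨N0, h0⟩ ⟨N1, h1⟩ ⟨be, hb⟩ ⟨ga, hg⟩).2
  convert h using 1
  funext i
  exact (P1_map (evS S i) (⟨k, hk⟩ : S) ⟨N0, h0⟩ ⟨N1, h1⟩ ⟨be, hb⟩ ⟨ga, hg⟩).symm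

lemma P2_mem (S : Subring (ℕ → ℂ)) (hk : k ∈ S) (h0 : N0 ∈ S) (h1 : N1 ∈ S) (hb : be ∈ S)
    (hg : ga ∈ S) : (fun i => P2 (k i) (N0 i) (N1 i) (be i) (ga i)) ∈ S := by
  have h := (P2 (⟨k, hk⟩ : S) ⟨N0, h0⟩ ⟨N1, h1⟩ ⟨be, hb⟩ ⟨ga, hg⟩).2
  convert h using 1
  funext i
  exact (P2_map (evS S i) (⟨k, hk⟩ : S) ⟨N0, h0⟩ ⟨N1, h1⟩ ⟨be, hb⟩ ⟨ga, hg⟩).symm

lemma P3_mem (S : Subring (ℕ → ℂ)) (hk : k ∈ S) (h0 : N0 ∈ S) (h1 : N1 ∈ S) (hb : be ∈ S)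
    (hg : ga ∈ S) : (fun i => P3 (k i) (N0 i) (N1 i) (be i) (ga i)) ∈ S := by
  have h := (P3 (⟨k, hk⟩ : S) ⟨N0, h0⟩ ⟨N1, h1⟩ ⟨be, hb⟩ ⟨ga, hg⟩).2
  convert h using 1
  funext i
  exact (P3_map (evS S i) (⟨k, hk⟩ : S) ⟨N0, h0⟩ ⟨N1, h1⟩ ⟨be, hb⟩ ⟨ga, hg⟩).symm

lemma P4_mem (S : Subring (ℕ → ℂ)) (hk : k ∈ S) (h0 : N0 ∈ S) (h1 : N1 ∈ S) (hb : be ∈ S)
    (hg : ga ∈ S) : (fun i => P4 (k i) (N0 i) (N1 i) (be i) (ga i)) ∈ S := by
  have h := (P4 (⟨k, hk⟩ : S) ⟨N0, h0⟩ ⟨N1, h1⟩ ⟨be, hb⟩ ⟨ga, hg⟩).2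
  convert h using 1
  funext i
  exact (P4_map (evS S i) (⟨k, hk⟩ : S) ⟨N0, h0⟩ ⟨N1, h1⟩ ⟨be, hb⟩ ⟨ga, hg⟩).symm

lemma P5_mem (S : Subring (ℕ → ℂ)) (hk : k ∈ S) (h0 : N0 ∈ S) (h1 : N1 ∈ S) (hb : be ∈ S)
    (hg : ga ∈ S) : (fun i => P5 (k i) (N0 i) (N1 i) (be i) (ga i)) ∈ S := by
  have h := (P5 (⟨k, hk⟩ : S) ⟨N0, h0⟩ ⟨N1, h1⟩ ⟨be, hb⟩ ⟨ga, hg⟩).2
  convert h using 1
  funext i
  exact (P5_map (evS S i) (⟨k, hk⟩ : S) ⟨N0, h0⟩ ⟨N1, h1⟩ ⟨be, hb⟩ ⟨ga, hg⟩).symm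

lemma Rst_mem (S : Subring (ℕ → ℂ)) (hk : k ∈ S) (h0 : N0 ∈ S) (h1 : N1 ∈ S) (hb : be ∈ S)
    (hg : ga ∈ S) (he : e ∈ S) :
    (fun i => Rst (k i) (N0 i) (N1 i) (be i) (ga i) (e i)) ∈ S := by
  have h := (Rst (⟨k, hk⟩ : S) ⟨N0, h0⟩ ⟨N1, h1⟩ ⟨be, hb⟩ ⟨ga, hg⟩ ⟨e, he⟩).2
  convert h using 1
  funext i
  exact (Rst_map (evS S i) (⟨k, hk⟩ : S) ⟨N0, h0⟩ ⟨N1, h1⟩ ⟨be, hb⟩ ⟨ga, hg⟩ ⟨e, he⟩).symm

end closure

end Pool.Agent.H472R2
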